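import Pool.Agent.Helper49.Coset.Blk

/-!
The twisted Gauss decomposition with prescribed diagonal part and regular subdiagonals.
-/

namespace CosetT

open Matrix

variable {F : Type*} [Field F]

theorem step_identity {n : ℕ} {h : F} (hh : h ≠ 0) (r' c' x : Fin n → F)
    (M' g' L' D' U' G' : Matrix (Fin n) (Fin n) F)
    (hS : (Matrix.of fun i j => M' i j - c' i * r' j / h) * G' = g' * (L' * D' * U'))
    (hx : ∀ i, ∑ l, g' i l * x l = c' i) :
    blk h r' c' M' * blk 1 0 0 G' =
      blk 1 0 0 g' * (blk 1 0 (fun i => x i / h) L' * blk h 0 0 D' *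
        blk 1 (fun j => (∑ l, r' l * G' l j) / h) 0 U') := by
  have h1 : ∀ i j, ∑ l, (L' * D') i l * U' l j = (L' * D' * U') i j := by
    intro i j; rw [Matrix.mul_apply (M := L' * D')]
  have h2 : ∀ i j, ∑ l, M' i l * G' l j =
      c' i * ((∑ l, r' l * G' l j) / h) + ∑ l, g' i l * (L' * D' * U') l j := by
    intro i j
    have := congrFun (congrFun hS i) j
    rw [Matrix.mul_apply, Matrix.mul_apply] at this
    rw [← this, Finset.sum_div, Finset.mul_sum, ← Finset.sum_add_distrib]
    apply Finset.sum_congr rfl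
    intro l _
    rw [Matrix.of_apply]
    field_simp
    ring
  rw [blk_mul, blk_mul, blk_mul, blk_mul]
  ext i j
  refine Fin.cases ?_ (fun i => ?_) i <;> refine Fin.cases ?_ (fun j => ?_) j
  · simp
  · simp [mul_div_cancel₀ _ hh]
  · simp [div_mul_cancel₀ _ hh, hx]
  · simp only [blk_ss, Matrix.of_apply, Pi.zero_apply, zero_mul, mul_zero, zero_add, add_zero,
      mul_one, Finset.sum_const_zero]
    rw [h2 i j]
    simp only [div_mul_cancel₀ _ hh, mul_add, Finset.sum_add_distrib]
    congr 1
    · rw [← hx i, Finset.sum_mul]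
      apply Finset.sum_congr rfl
      intro l _; ring

theorem diag_blk {n : ℕ} (H : Fin (n + 1) → F) :
    Matrix.diagonal H = blk (H 0) 0 0 (Matrix.diagonal fun i => H i.succ) := by
  ext i j
  refine Fin.cases ?_ (fun i => ?_) i <;> refine Fin.cases ?_ (fun j => ?_) j <;>
    simp [Matrix.diagonal_apply, Fin.succ_ne_zero, (Fin.succ_ne_zero _).symm]

theorem lowerUni_blk {n : ℕ} {c : Fin n → F} {L : Matrix (Fin n) (Fin n) F} (hL : LowerUni L) :
    LowerUni (blk 1 0 c L) := by
  constructor
  · intro i; refine Fin.cases ?_ (fun i => ?_) i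
    · simp
    · simpa using hL.1 i
  · intro i j
    refine Fin.cases ?_ (fun i => ?_) i <;> refine Fin.cases ?_ (fun j => ?_) j
    · intro h; exact absurd h (lt_irrefl _)
    · intro _; simp
    · intro h; exact absurd h (Fin.not_lt_zero _)
    · intro h; simpa using hL.2 i j (Fin.succ_lt_succ_iff.1 h)

theorem upperUni_blk {n : ℕ} {r : Fin n → F} {L : Matrix (Fin n) (Fin n) F} (hL : UpperUni L) :
    UpperUni (blk 1 r 0 L) := by
  constructor
  · intro i; refine Fin.cases ?_ (fun i => ?_) i
    · simp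
    · simpa using hL.1 i
  · intro i j
    refine Fin.cases ?_ (fun i => ?_) i <;> refine Fin.cases ?_ (fun j => ?_) j
    · intro h; exact absurd h (lt_irrefl _)
    · intro h; exact absurd h (Fin.not_lt_zero _)
    · intro _; simp
    · intro h; simpa using hL.2 i j (Fin.succ_lt_succ_iff.1 h)

theorem det_map_one {n : ℕ} {g : Matrix (Fin n) (Fin n) F} (hg : g.det = 1) (τ : F ≃+* F) :
    (g.map τ).det = 1 := by
  have : (g.map τ) = τ.mapMatrix g := rfl
  rw [this, ← RingEquiv.map_det, hg, map_one]

theorem gauss {σ τ : F ≃+* F} [Finite F] (hτ : ∃ z, τ z ≠ z) (hστ : ∀ z, σ z = z → τ z = z)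
    {w : F} (hw : σ w = w) (hw0 : w ≠ 0) (hw1 : w ≠ 1) :
    ∀ (n : ℕ) (B : Matrix (Fin (n + 1)) (Fin (n + 1)) F) (H : Fin (n + 1) → F),
      (∀ i, H i ≠ 0) → B.det = ∏ i, H i →
      ∀ c r : Fin (n + 1) → F, c ≠ 0 → r ≠ 0 → ∀ γ γ' : F, γ ≠ 0 → γ' ≠ 0 →
      ∃ g L U : Matrix (Fin (n + 1)) (Fin (n + 1)) F, g.det = 1 ∧ LowerUni L ∧ UpperUni U ∧
        B * g.map τ = g * (L * Matrix.diagonal H * U) ∧
        (∀ i (hi : i + 4 ≤ n + 1),
          L ⟨i + 1, by omega⟩ ⟨i, by omega⟩ ∉ D σ ∧ U ⟨i, by omega⟩ ⟨i + 1, by omega⟩ ∉ D σ) ∧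
        (3 ≤ n + 1 → γ * (g⁻¹ *ᵥ c) 0 ∉ D σ ∧ γ' * (∑ l, r l * τ (g l 0)) ∉ D σ) := by
  intro n
  induction n with
  | zero =>
    intro B H hH hdet c r _ _ γ γ' _ _
    refine ⟨1, 1, 1, Matrix.det_one, ?_, ?_, ?_, ?_, ?_⟩
    · exact ⟨fun i => Matrix.one_apply_eq i, fun i j h => Matrix.one_apply_ne (ne_of_lt h)⟩
    · exact ⟨fun i => Matrix.one_apply_eq i, fun i j h => Matrix.one_apply_ne (ne_of_gt h)⟩
    · have h1 : (1 : Matrix (Fin (0 + 1)) (Fin (0 + 1)) F).map τ = 1 := by
        rw [Matrix.map_one _ (map_zero τ) (map_one τ)]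
      rw [h1, mul_one, one_mul, one_mul, mul_one]
      ext i j
      have hi : i = 0 := Fin.ext (by omega)
      have hj : j = 0 := Fin.ext (by omega)
      subst hi; subst hj
      rw [Matrix.diagonal_apply_eq]
      have h2 : B.det = B 0 0 := Matrix.det_fin_one B
      rw [← h2, hdet]; simp
    · intro i hi; omega
    · intro h; omega
  | succ n ih =>
    intro B H hH hdet c r hc hr γ γ' hγ hγ'
    have hBdet : B.det ≠ 0 := by
      rw [hdet]; exact Finset.prod_ne_zero_iff.2 (fun i _ => hH i)
    set h := H 0 with hh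
    have hh0 : h ≠ 0 := hH 0
    -- choice of v and φ
    obtain ⟨v, φ, h1, h2, h3⟩ : ∃ v φ : Fin (n + 1 + 1) → F, (∑ l, φ l * v l = 1) ∧
        (∑ l, φ l * act τ B v l = h) ∧ (1 ≤ n → γ * (∑ l, φ l * c l) ∉ D σ ∧
          γ' * (∑ l, r l * τ (v l)) ∉ D σ ∧ act τ B v ≠ h • v ∧
          (∃ j, ∑ l, φ l * B l j ≠ h * τ (φ j))) := by
      rcases Nat.eq_zero_or_pos n with hn | hn
      · subst hn
        obtain ⟨v, φ, h1, h2⟩ := choose_two hτ hBdet h
        exact ⟨v, φ, h1, h2, fun h => absurd h (by omega)⟩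
      · obtain ⟨v, φ, h1, h2, h3, h4, h5, h6⟩ :=
          choose_three hτ hστ hw hw0 hw1 (by omega) hBdet hc hr hγ hγ' hh0
        exact ⟨v, φ, h1, h2, fun _ => ⟨h3, h4, h5, h6⟩⟩
    obtain ⟨g1, hg1, hg1v, hg1φ⟩ := exists_sl_ext (by omega : 1 ≤ n + 1) h1
    have hg1u : IsUnit g1.det := by rw [hg1]; exact isUnit_one
    have hg1τ := det_map_one hg1 τ
    set M1 := g1⁻¹ * (B * g1.map τ) with hM1
    have hM1' : g1 * M1 = B * g1.map τ := by
      rw [hM1, ← mul_assoc, Matrix.mul_nonsing_inv _ hg1u, one_mul]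
    clear_value M1
    have hrow0 : ∀ j, M1 0 j = ∑ l, φ l * (B * g1.map τ) l j := by
      intro j
      rw [← hM1']
      have : ∑ l, φ l * (g1 * M1) l j = ∑ k, (∑ l, φ l * g1 l k) * M1 k j := by
        simp only [Matrix.mul_apply, Finset.mul_sum, Finset.sum_mul]
        rw [Finset.sum_comm]
        apply Finset.sum_congr rfl; intro k _
        apply Finset.sum_congr rfl; intro l _
        ring
      rw [this]
      simp [hg1φ]
    have hcol0 : ∀ l, (B * g1.map τ) l 0 = act τ B v l := by
      intro l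
      rw [Matrix.mul_apply, act_apply]
      apply Finset.sum_congr rfl; intro k _
      rw [Matrix.map_apply, hg1v]
    have hM00 : M1 0 0 = h := by
      rw [hrow0, ← h2]
      apply Finset.sum_congr rfl; intro l _
      rw [hcol0]
    set r' : Fin (n + 1) → F := fun j => M1 0 j.succ with hr'
    set c' : Fin (n + 1) → F := fun i => M1 i.succ 0 with hc'
    set M' : Matrix (Fin (n + 1)) (Fin (n + 1)) F := Matrix.of fun i j => M1 i.succ j.succ with hM'
    have hM1b : M1 = blk h r' c' M' := by
      conv_lhs => rw [eq_blk M1]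
      rw [hM00]
    set S : Matrix (Fin (n + 1)) (Fin (n + 1)) F := Matrix.of fun i j => M' i j - c' i * r' j / h
      with hS
    have hdetS : S.det = ∏ i : Fin (n + 1), H i.succ := by
      have h4 : M1.det = B.det := by
        have := congrArg Matrix.det hM1'
        rw [Matrix.det_mul, Matrix.det_mul, hg1, hg1τ, one_mul, mul_one] at this
        exact this
      rw [hM1b, det_blk hh0, hdet, Fin.prod_univ_succ] at h4
      exact mul_left_cancel₀ hh0 h4
    -- apply the induction hypothesis
    obtain ⟨cc, rr, hcc, hrr, hccrr⟩ : ∃ cc rr : Fin (n + 1) → F, cc ≠ 0 ∧ rr ≠ 0 ∧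
        (1 ≤ n → cc = c' ∧ rr = r') := by
      rcases Nat.eq_zero_or_pos n with hn | hn
      · refine ⟨fun _ => 1, fun _ => 1, ?_, ?_, fun h => absurd h (by omega)⟩
        · intro h; exact one_ne_zero (congrFun h 0)
        · intro h; exact one_ne_zero (congrFun h 0)
      · obtain ⟨-, -, h5, ⟨j0, h6⟩⟩ := h3 hn
        refine ⟨c', r', ?_, ?_, fun _ => ⟨rfl, rfl⟩⟩
        · intro h0
          apply h5
          ext l
          rw [← hcol0, ← hM1', Matrix.mul_apply, Fin.sum_univ_succ]
          have : ∀ i : Fin (n + 1), M1 i.succ 0 = 0 := fun i => congrFun h0 i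
          simp only [this, mul_zero, Finset.sum_const_zero, add_zero, hM00, hg1v]
          simp [mul_comm]
        · intro h0
          apply h6
          -- φ B τ(g1) = h τ(φ) τ(g1)
          have h7 : ∀ j, ∑ l, φ l * (B * g1.map τ) l j = ∑ l, h * τ (φ l) * (g1.map τ) l j := by
            intro j
            rw [← hrow0]
            have h8 : ∑ l, h * τ (φ l) * (g1.map τ) l j = h * τ (∑ l, φ l * g1 l j) := by
              rw [map_sum, Finset.mul_sum]
              apply Finset.sum_congr rfl; intro l _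
              rw [map_mul, Matrix.map_apply]; ring
            rw [h8, hg1φ]
            refine Fin.cases ?_ (fun j => ?_) j
            · simp [hM00]
            · have : M1 0 j.succ = 0 := congrFun h0 j
              simp [this]
          -- cancel
          have h9 : (φ ᵥ* B) ᵥ* g1.map τ = (fun l => h * τ (φ l)) ᵥ* g1.map τ := by
            rw [Matrix.vecMul_vecMul]
            ext j
            have := h7 j
            simpa [Matrix.vecMul, dotProduct] using this
          have h10 := congrArg (fun x => x ᵥ* (g1.map τ)⁻¹) h9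
          simp only [Matrix.vecMul_vecMul] at h10
          rw [Matrix.mul_assoc B, Matrix.mul_nonsing_inv _ (by rw [hg1τ]; exact isUnit_one),
            Matrix.mul_one, Matrix.vecMul_one] at h10
          have := congrFun h10 j0
          simpa [Matrix.vecMul, dotProduct] using this
    obtain ⟨g', L', U', hg', hL', hU', hdec, hpos, hcr⟩ := ih S (fun i => H i.succ)
      (fun i => hH _) hdetS cc rr hcc hrr h⁻¹ h⁻¹ (inv_ne_zero hh0) (inv_ne_zero hh0)
    have hg'u : IsUnit g'.det := by rw [hg']; exact isUnit_one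
    set x : Fin (n + 1) → F := g'⁻¹ *ᵥ c' with hx
    have hx' : ∀ i, ∑ l, g' i l * x l = c' i := by
      intro i
      have : (g' *ᵥ x) i = c' i := by
        rw [hx, Matrix.mulVec_mulVec, Matrix.mul_nonsing_inv _ hg'u, Matrix.one_mulVec]
      rw [← this]; simp [Matrix.mulVec, dotProduct]
    have hstep := step_identity hh0 r' c' x M' g' L' (Matrix.diagonal fun i => H i.succ) U'
      (g'.map τ) hdec hx'
    have hgdet : (g1 * blk 1 0 0 g').det = 1 := by
      rw [Matrix.det_mul, hg1, det_blk_lower, hg']; ring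
    refine ⟨g1 * blk 1 0 0 g', blk 1 0 (fun i => x i / h) L',
      blk 1 (fun j => (∑ l, r' l * (g'.map τ) l j) / h) 0 U', hgdet,
      lowerUni_blk hL', upperUni_blk hU', ?_, ?_, ?_⟩
    · have h4 : (g1 * blk 1 0 0 g').map τ = g1.map τ * blk 1 0 0 (g'.map τ) := by
        have : (g1 * blk 1 0 0 g').map τ = τ.toRingHom.mapMatrix (g1 * blk 1 0 0 g') := rfl
        rw [this, map_mul]
        have h5 : τ.toRingHom.mapMatrix (blk 1 0 0 g') = blk 1 0 0 (g'.map τ) := by
          have : τ.toRingHom.mapMatrix (blk 1 0 0 g') = (blk 1 0 0 g').map τ := rfl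
          rw [this, blk_map]
          congr 1
          · exact map_one τ
          · ext i; exact map_zero τ
          · ext i; exact map_zero τ
        rw [h5]; rfl
      rw [h4, ← mul_assoc, ← hM1', mul_assoc, hM1b, hstep, diag_blk H, ← hh]
      simp only [Matrix.mul_assoc]
    · intro i hi
      rcases Nat.eq_zero_or_pos i with hi0 | hi0
      · subst hi0
        have hn : 1 ≤ n := by omega
        obtain ⟨hc1, hr1⟩ := hccrr hn
        obtain ⟨h4, h5⟩ := hcr (by omega)
        rw [hc1] at h4
        rw [hr1] at h5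
        constructor
        · have h6 : (blk 1 0 (fun i => x i / h) L') ⟨0 + 1, by omega⟩ ⟨0, by omega⟩ = h⁻¹ * x 0 := by
            show x 0 / h = _
            rw [div_eq_inv_mul]
          rw [h6]; exact h4
        · have h6 : (blk 1 (fun j => (∑ l, r' l * (g'.map τ) l j) / h) 0 U') ⟨0, by omega⟩
              ⟨0 + 1, by omega⟩ = h⁻¹ * (∑ l, r' l * τ (g' l 0)) := by
            show (∑ l, r' l * (g'.map τ) l 0) / h = _
            rw [div_eq_inv_mul]; rfl
          rw [h6]; exact h5
      · obtain ⟨i, rfl⟩ : ∃ k, i = k + 1 := ⟨i - 1, by omega⟩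
        obtain ⟨h4, h5⟩ := hpos i (by omega)
        exact ⟨h4, h5⟩
    · intro h3n
      obtain ⟨h4, h5, -, -⟩ := h3 (by omega)
      constructor
      · have hfin : ((g1 * blk 1 0 0 g')⁻¹ *ᵥ c) 0 = ∑ l, φ l * c l := by
          set y := (g1 * blk 1 0 0 g')⁻¹ *ᵥ c with hy
          have hcy : c = (g1 * blk 1 0 0 g') *ᵥ y := by
            rw [hy, Matrix.mulVec_mulVec, Matrix.mul_nonsing_inv _
              (by rw [hgdet]; exact isUnit_one), Matrix.one_mulVec]
          have e1 : ∀ j, ∑ l, φ l * (g1 * blk 1 0 0 g') l j = if j = 0 then 1 else 0 := by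
            intro j
            have : ∑ l, φ l * (g1 * blk 1 0 0 g') l j =
                ∑ k, (∑ l, φ l * g1 l k) * (blk 1 0 0 g') k j := by
              simp only [Matrix.mul_apply, Finset.mul_sum, Finset.sum_mul]
              rw [Finset.sum_comm]
              apply Finset.sum_congr rfl; intro k _
              apply Finset.sum_congr rfl; intro l _
              ring
            rw [this]
            simp only [hg1φ, ite_mul, one_mul, zero_mul, Finset.sum_ite_eq', Finset.mem_univ, if_true]
            refine Fin.cases ?_ (fun j => ?_) j <;> simp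
          have e2 : ∑ l, φ l * c l = ∑ j, (∑ l, φ l * (g1 * blk 1 0 0 g') l j) * y j := by
            conv_lhs => rw [hcy]
            simp only [Matrix.mulVec, dotProduct, Finset.mul_sum, Finset.sum_mul]
            rw [Finset.sum_comm]
            apply Finset.sum_congr rfl; intro k _
            apply Finset.sum_congr rfl; intro l _
            ring
          rw [e2]
          simp [e1]
        rw [hfin]; exact h4
      · have : ∀ l, (g1 * blk 1 0 0 g') l 0 = v l := by
          intro l
          rw [Matrix.mul_apply, Fin.sum_univ_succ]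
          simp [hg1v]
        simp only [this]
        exact h5

end CosetT
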