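import Pool.Agent.Helper49.Coset.Prod

/-!
Automorphisms of `PSL_n(F)` induced by semilinear maps.
-/

namespace CosetT

open Matrix

variable {F : Type*} [Field F] {n : ℕ}

/-- `PSL_n(F)` -/
abbrev PSLn (n : ℕ) (F : Type*) [Field F] := Matrix.ProjectiveSpecialLinearGroup (Fin n) F

/-- the projection `SL_n(F) → PSL_n(F)` -/
def mk (g : SpecialLinearGroup (Fin n) F) : PSLn n F := QuotientGroup.mk g

theorem mk_mul (g h : SpecialLinearGroup (Fin n) F) : mk (g * h) = mk g * mk h := rfl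

theorem mk_inv (g : SpecialLinearGroup (Fin n) F) : mk g⁻¹ = (mk g)⁻¹ := rfl

theorem mk_surj (x : PSLn n F) : ∃ g, mk g = x := QuotientGroup.mk_surjective x

/-- `α` is induced by `X ↦ A σ(X) A⁻¹` -/
def Ind (α : MulAut (PSLn n F)) (A : Matrix (Fin n) (Fin n) F) (σ : F ≃+* F) : Prop :=
  ∀ g g' : SpecialLinearGroup (Fin n) F,
    (g' : Matrix (Fin n) (Fin n) F) * A = A * (g : Matrix (Fin n) (Fin n) F).map σ →
      α (mk g) = mk g'

/-- existence of the image -/
theorem exists_image {A : Matrix (Fin n) (Fin n) F} (hA : A.det ≠ 0) (σ : F ≃+* F)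
    (g : SpecialLinearGroup (Fin n) F) :
    ∃ g' : SpecialLinearGroup (Fin n) F,
      (g' : Matrix (Fin n) (Fin n) F) * A = A * (g : Matrix (Fin n) (Fin n) F).map σ := by
  refine ⟨⟨A * (g : Matrix (Fin n) (Fin n) F).map σ * A⁻¹, ?_⟩, ?_⟩
  · rw [Matrix.det_mul, Matrix.det_mul, det_map_one g.2, mul_one, Matrix.det_nonsing_inv,
      Ring.mul_inverse_cancel _ (isUnit_iff_ne_zero.2 hA)]
  · show A * (g : Matrix (Fin n) (Fin n) F).map σ * A⁻¹ * A = _
    rw [mul_assoc, Matrix.nonsing_inv_mul _ (isUnit_iff_ne_zero.2 hA), mul_one]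

theorem map_mul' (σ : F ≃+* F) (X Y : Matrix (Fin n) (Fin n) F) :
    (X * Y).map σ = X.map σ * Y.map σ := by
  have : (X * Y).map σ = σ.toRingHom.mapMatrix (X * Y) := rfl
  rw [this, map_mul]; rfl

theorem map_smul' (σ : F ≃+* F) (c : F) (X : Matrix (Fin n) (Fin n) F) :
    (c • X).map σ = σ c • X.map σ := by
  ext i j; simp

theorem map_det' (σ : F ≃+* F) (X : Matrix (Fin n) (Fin n) F) : (X.map σ).det = σ X.det := by
  have : (X.map σ) = σ.mapMatrix X := rfl
  rw [this, ← RingEquiv.map_det]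

theorem map_map' (σ τ : F ≃+* F) (X : Matrix (Fin n) (Fin n) F) :
    (X.map τ).map σ = X.map (τ.trans σ) := by
  ext i j; simp

theorem Ind.eq {α β : MulAut (PSLn n F)} {A : Matrix (Fin n) (Fin n) F} {σ : F ≃+* F}
    (hA : A.det ≠ 0) (h1 : Ind α A σ) (h2 : Ind β A σ) : α = β := by
  ext x
  obtain ⟨g, rfl⟩ := mk_surj x
  obtain ⟨g', hg'⟩ := exists_image hA σ g
  rw [h1 g g' hg', h2 g g' hg']

theorem Ind.smul {α : MulAut (PSLn n F)} {A : Matrix (Fin n) (Fin n) F} {σ : F ≃+* F}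
    (h : Ind α A σ) {c : F} (hc : c ≠ 0) : Ind α (c • A) σ := by
  intro g g' hg
  apply h g g'
  rw [Matrix.mul_smul, Matrix.smul_mul] at hg
  exact smul_right_injective _ hc hg

theorem Ind.mul {α β : MulAut (PSLn n F)} {A B : Matrix (Fin n) (Fin n) F} {σ τ : F ≃+* F}
    (hA : A.det ≠ 0) (hB : B.det ≠ 0) (h1 : Ind α A σ) (h2 : Ind β B τ) :
    Ind (α * β) (A * B.map σ) (τ.trans σ) := by
  intro g g' hg
  obtain ⟨g1, hg1⟩ := exists_image hB τ g
  obtain ⟨g2, hg2⟩ := exists_image hA σ g1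
  rw [MulAut.mul_apply, h2 g g1 hg1, h1 g1 g2 hg2]
  congr 1
  have hAB : (A * B.map σ).det ≠ 0 := by
    rw [Matrix.det_mul, map_det']
    exact mul_ne_zero hA (by simpa using hB)
  have h3 : (g2 : Matrix (Fin n) (Fin n) F) * (A * B.map σ) = g' * (A * B.map σ) := by
    rw [hg, ← mul_assoc, hg2, mul_assoc, ← map_mul', hg1, map_mul', map_map', mul_assoc]
  have h4 := congrArg (fun X => X * (A * B.map σ)⁻¹) h3
  beta_reduce at h4
  rw [mul_assoc, Matrix.mul_nonsing_inv _ (isUnit_iff_ne_zero.2 hAB), mul_one, mul_assoc,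
    Matrix.mul_nonsing_inv _ (isUnit_iff_ne_zero.2 hAB), mul_one] at h4
  exact Subtype.ext h4

theorem map_refl' (X : Matrix (Fin n) (Fin n) F) : X.map (RingEquiv.refl F) = X := by
  ext i j; rfl

theorem ind_conj (w : SpecialLinearGroup (Fin n) F) :
    Ind (MulAut.conj (mk w)) (w : Matrix (Fin n) (Fin n) F) (RingEquiv.refl F) := by
  intro g g' hg
  rw [map_refl'] at hg
  have h1 : g' * w = w * g := Subtype.ext hg
  rw [MulAut.conj_apply, ← mk_mul, ← mk_inv, ← mk_mul, ← h1, mul_assoc, mul_inv_cancel, mul_one]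

theorem det_one_ne {X : Matrix (Fin n) (Fin n) F} (h : X.det = 1) : X.det ≠ 0 := by
  rw [h]; exact one_ne_zero

/-- conjugates of an induced automorphism -/
theorem ind_conjugate {x : MulAut (PSLn n F)} {X : Matrix (Fin n) (Fin n) F} {σ : F ≃+* F}
    (hX : X.det ≠ 0) (h : Ind x X σ) (u : SpecialLinearGroup (Fin n) F)
    {Y : Matrix (Fin n) (Fin n) F}
    (hY : Y * (u : Matrix (Fin n) (Fin n) F).map σ = u * X) :
    Ind (MulAut.conj (mk u) * x * (MulAut.conj (mk u))⁻¹) Y σ := by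
  intro g g' hg
  -- conj(u)⁻¹ : g ↦ u⁻¹ g u
  have e1 : (MulAut.conj (mk u))⁻¹ (mk g) = mk (u⁻¹ * g * u) := by
    rw [← map_inv, MulAut.conj_apply, mk_mul, mk_mul, mk_inv, inv_inv]
  obtain ⟨g1, hg1⟩ := exists_image hX σ (u⁻¹ * g * u)
  rw [MulAut.mul_apply, MulAut.mul_apply, e1, h _ _ hg1, MulAut.conj_apply, ← mk_inv, ← mk_mul,
    ← mk_mul]
  congr 1
  -- u g1 u⁻¹ = g'
  have hYdet : Y.det ≠ 0 := by
    have := congrArg Matrix.det hY
    rw [Matrix.det_mul, Matrix.det_mul, map_det', u.2, map_one, mul_one, one_mul] at this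
    rw [this]; exact hX
  have hu : (u : Matrix (Fin n) (Fin n) F).map σ * (↑u⁻¹ : Matrix (Fin n) (Fin n) F).map σ = 1 := by
    rw [← map_mul', ← Matrix.SpecialLinearGroup.coe_mul, mul_inv_cancel, Matrix.SpecialLinearGroup.coe_one,
      Matrix.map_one _ (map_zero σ) (map_one σ)]
  have hY2 : Y = u * X * (↑u⁻¹ : Matrix (Fin n) (Fin n) F).map σ := by
    rw [← hY, mul_assoc, hu, mul_one]
  have h3 : ((u * g1 * u⁻¹ : SpecialLinearGroup (Fin n) F) : Matrix (Fin n) (Fin n) F) * Y =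
      g' * Y := by
    rw [hg]
    have e2 : ((u * g1 * u⁻¹ : SpecialLinearGroup (Fin n) F) : Matrix (Fin n) (Fin n) F) * Y =
        u * (g1 * X) * (↑u⁻¹ : Matrix (Fin n) (Fin n) F).map σ := by
      rw [hY2]
      have e3 : (↑u⁻¹ : Matrix (Fin n) (Fin n) F) * (u : Matrix (Fin n) (Fin n) F) = 1 := by
        rw [← Matrix.SpecialLinearGroup.coe_mul, inv_mul_cancel, Matrix.SpecialLinearGroup.coe_one]
      rw [Matrix.SpecialLinearGroup.coe_mul, Matrix.SpecialLinearGroup.coe_mul]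
      calc (u : Matrix (Fin n) (Fin n) F) * g1 * (↑u⁻¹ : Matrix (Fin n) (Fin n) F) *
            (u * X * (↑u⁻¹ : Matrix (Fin n) (Fin n) F).map σ)
          = (u : Matrix (Fin n) (Fin n) F) * g1 * ((↑u⁻¹ : Matrix (Fin n) (Fin n) F) * u) *
            X * (↑u⁻¹ : Matrix (Fin n) (Fin n) F).map σ := by simp only [mul_assoc]
        _ = _ := by rw [e3, mul_one]; simp only [mul_assoc]
    rw [e2, hg1]
    have e4 : ((u⁻¹ * g * u : SpecialLinearGroup (Fin n) F) : Matrix (Fin n) (Fin n) F).map σ =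
        (↑u⁻¹ : Matrix (Fin n) (Fin n) F).map σ * (g : Matrix (Fin n) (Fin n) F).map σ *
        (u : Matrix (Fin n) (Fin n) F).map σ := by
      rw [Matrix.SpecialLinearGroup.coe_mul, Matrix.SpecialLinearGroup.coe_mul, map_mul', map_mul']
    rw [e4, hY2]
    calc (u : Matrix (Fin n) (Fin n) F) * (X * ((↑u⁻¹ : Matrix (Fin n) (Fin n) F).map σ *
          (g : Matrix (Fin n) (Fin n) F).map σ * (u : Matrix (Fin n) (Fin n) F).map σ)) *
          (↑u⁻¹ : Matrix (Fin n) (Fin n) F).map σ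
        = (u : Matrix (Fin n) (Fin n) F) * X * (↑u⁻¹ : Matrix (Fin n) (Fin n) F).map σ *
          (g : Matrix (Fin n) (Fin n) F).map σ * ((u : Matrix (Fin n) (Fin n) F).map σ *
          (↑u⁻¹ : Matrix (Fin n) (Fin n) F).map σ) := by simp only [mul_assoc]
      _ = _ := by rw [hu, mul_one]
  have h4 := congrArg (fun Z => Z * Y⁻¹) h3
  beta_reduce at h4
  rw [Matrix.mul_nonsing_inv_cancel_right _ _ (isUnit_iff_ne_zero.2 hYdet),
    Matrix.mul_nonsing_inv_cancel_right _ _ (isUnit_iff_ne_zero.2 hYdet)] at h4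
  exact Subtype.ext h4

/-- **The level of automorphisms.** Suppose `x` is induced by `(X, σ)` and the matrix-level
statement holds; then every element of `x² G` is a product of two `G`-conjugates of `x`. -/
theorem aut_level {x : MulAut (PSLn n F)} {X : Matrix (Fin n) (Fin n) F} {σ : F ≃+* F}
    (hX : X.det ≠ 0) (h : Ind x X σ) {B : Matrix (Fin n) (Fin n) F} {y : MulAut (PSLn n F)}
    (hy : Ind y B (σ.trans σ))
    {g P Q : Matrix (Fin n) (Fin n) F} (hg : g.det = 1) (hP : SConj σ P X) (hQ : SConj σ Q X)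
    (hB : B * g.map (σ.trans σ) = g * (P * Q.map σ)) :
    ∃ u v : PSLn n F, y = (MulAut.conj u * x * (MulAut.conj u)⁻¹) *
      (MulAut.conj v * x * (MulAut.conj v)⁻¹) := by
  obtain ⟨a, ha, haP⟩ := hP
  obtain ⟨b, hb, hbQ⟩ := hQ
  set u : SpecialLinearGroup (Fin n) F := ⟨g * a, by rw [Matrix.det_mul, hg, ha, one_mul]⟩ with hu
  set v : SpecialLinearGroup (Fin n) F := ⟨g * b, by rw [Matrix.det_mul, hg, hb, one_mul]⟩ with hv
  have hgi : IsUnit g.det := by rw [hg]; exact isUnit_one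
  have hgσ : IsUnit (g.map σ).det := by rw [map_det', hg, map_one]; exact isUnit_one
  -- the two factors
  set Y1 := g * P * (g.map σ)⁻¹ with hY1
  set Y2 := g * Q * (g.map σ)⁻¹ with hY2
  have e1 : Y1 * (u : Matrix (Fin n) (Fin n) F).map σ = u * X := by
    show g * P * (g.map σ)⁻¹ * (g * a).map σ = g * a * X
    rw [map_mul', ← mul_assoc, mul_assoc (g * P), Matrix.nonsing_inv_mul _ hgσ, mul_one,
      mul_assoc, haP, mul_assoc]
  have e2 : Y2 * (v : Matrix (Fin n) (Fin n) F).map σ = v * X := by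
    show g * Q * (g.map σ)⁻¹ * (g * b).map σ = g * b * X
    rw [map_mul', ← mul_assoc, mul_assoc (g * Q), Matrix.nonsing_inv_mul _ hgσ, mul_one,
      mul_assoc, hbQ, mul_assoc]
  have i1 := ind_conjugate hX h u e1
  have i2 := ind_conjugate hX h v e2
  have hPdet : P.det ≠ 0 := by
    have := congrArg Matrix.det haP
    rw [Matrix.det_mul, Matrix.det_mul, map_det', ha, map_one, mul_one, one_mul] at this
    rw [this]; exact hX
  have hQdet : Q.det ≠ 0 := by
    have := congrArg Matrix.det hbQ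
    rw [Matrix.det_mul, Matrix.det_mul, map_det', hb, map_one, mul_one, one_mul] at this
    rw [this]; exact hX
  have hgσi : (g.map σ)⁻¹.det = 1 := by
    rw [Matrix.det_nonsing_inv, map_det', hg, map_one, Ring.inverse_one]
  have hY1det : Y1.det ≠ 0 := by
    rw [hY1, Matrix.det_mul, Matrix.det_mul, hg, hgσi, one_mul, mul_one]; exact hPdet
  have hY2det : Y2.det ≠ 0 := by
    rw [hY2, Matrix.det_mul, Matrix.det_mul, hg, hgσi, one_mul, mul_one]; exact hQdet
  have i12 := Ind.mul hY1det hY2det i1 i2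
  have hBeq : B = Y1 * Y2.map σ := by
    have h2 : (g.map (σ.trans σ)) = (g.map σ).map σ := (map_map' σ σ g).symm
    have h3 : IsUnit (g.map (σ.trans σ)).det := by rw [map_det', hg, map_one]; exact isUnit_one
    have h4 : ((g.map σ)⁻¹).map σ = (g.map (σ.trans σ))⁻¹ := by
      have h5 : ((g.map σ)⁻¹).map σ * (g.map (σ.trans σ)) = 1 := by
        rw [h2, ← map_mul', Matrix.nonsing_inv_mul _ hgσ,
          Matrix.map_one _ (map_zero σ) (map_one σ)]
      exact (Matrix.inv_eq_left_inv h5).symm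
    have h6 : B = g * (P * Q.map σ) * (g.map (σ.trans σ))⁻¹ := by
      rw [← hB, Matrix.mul_nonsing_inv_cancel_right _ _ h3]
    rw [h6, hY1, hY2, map_mul', map_mul', h4]
    have h7 : (g.map σ)⁻¹ * g.map σ = 1 := Matrix.nonsing_inv_mul _ hgσ
    calc g * (P * Q.map σ) * (g.map (σ.trans σ))⁻¹
        = g * P * ((g.map σ)⁻¹ * g.map σ) * Q.map σ * (g.map (σ.trans σ))⁻¹ := by
          rw [h7, mul_one]; simp only [mul_assoc]
      _ = _ := by simp only [mul_assoc]
  refine ⟨mk u, mk v, ?_⟩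
  have hBdet : B.det ≠ 0 := by
    rw [hBeq, Matrix.det_mul, map_det']
    exact mul_ne_zero hY1det (by simpa using hY2det)
  rw [← hBeq] at i12
  exact Ind.eq hBdet hy i12

end CosetT
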