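import Pool.Agent.Helper49.Coset.Aut

/-!
The main theorem for semilinear automorphisms.
-/

namespace CosetT

open Matrix
open scoped Pointwise

section group

variable {G : Type*} [Group G]

/-- The coset `α G` of the inner automorphism group in `Aut(G)`. -/
def coset (α : MulAut G) : Set (MulAut G) := {y | ∃ g : G, y = α * MulAut.conj g}

/-- The `G`-class `x^G = {g⁻¹ x g : g ∈ G}` of `x ∈ Aut(G)`. -/
def cls (x : MulAut G) : Set (MulAut G) :=
  {y | ∃ g : G, y = (MulAut.conj g)⁻¹ * x * MulAut.conj g}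

theorem conj_mul_aut (α : MulAut G) (a : G) : MulAut.conj a * α = α * MulAut.conj (α⁻¹ a) := by
  ext z
  simp only [MulAut.mul_apply, MulAut.conj_apply, map_mul, map_inv]
  rw [MulAut.apply_inv_self]

/-- products of two elements of the class lie in the coset `α² G`. -/
theorem cls_mul_subset {α x : MulAut G} (hx : x ∈ coset α) : cls x * cls x ⊆ coset (α ^ 2) := by
  rintro _ ⟨_, ⟨g, rfl⟩, _, ⟨h, rfl⟩, rfl⟩
  obtain ⟨w, rfl⟩ := hx
  show _ ∈ coset (α ^ 2)
  have h1 : ∀ (a b : G) (β : MulAut G), MulAut.conj a * (β * MulAut.conj b) =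
      β * MulAut.conj (β⁻¹ a * b) := by
    intro a b β
    rw [← mul_assoc, conj_mul_aut, mul_assoc, ← map_mul]
  refine ⟨α⁻¹ (α⁻¹ g⁻¹ * w * g) * (α⁻¹ h⁻¹ * w * h), ?_⟩
  show (MulAut.conj g)⁻¹ * (α * MulAut.conj w) * MulAut.conj g *
    ((MulAut.conj h)⁻¹ * (α * MulAut.conj w) * MulAut.conj h) = _
  rw [← map_inv, ← map_inv, h1 g⁻¹ w α, mul_assoc α, ← map_mul, h1 h⁻¹ w α, mul_assoc α
    (MulAut.conj (α⁻¹ h⁻¹ * w)), ← map_mul, mul_assoc α, h1, pow_two]
  simp only [mul_assoc]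

/-- upgrade to an equality -/
theorem cls_mul_eq {α x : MulAut G} (hx : x ∈ coset α)
    (h : ∀ y ∈ coset (α ^ 2), ∃ u v : G, y = (MulAut.conj u * x * (MulAut.conj u)⁻¹) *
      (MulAut.conj v * x * (MulAut.conj v)⁻¹)) : cls x * cls x = coset (α ^ 2) := by
  apply Set.Subset.antisymm (cls_mul_subset hx)
  intro y hy
  obtain ⟨u, v, rfl⟩ := h y hy
  refine ⟨_, ⟨u⁻¹, rfl⟩, _, ⟨v⁻¹, rfl⟩, ?_⟩
  simp only [map_inv, inv_inv]

end group

variable {F : Type*} [Field F] {n : ℕ}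

theorem main_linear [Finite F] (σ : F ≃+* F) (hσ : ∃ z, σ (σ z) ≠ z)
    (hq : (n = 2 ∧ 4 ≤ Nat.card {z : F // σ z = z}) ∨ (3 ≤ n ∧ 5 ≤ Nat.card {z : F // σ z = z}))
    (A : Matrix (Fin n) (Fin n) F) (hA : A.det ≠ 0) (α : MulAut (PSLn n F)) (hα : Ind α A σ) :
    ∃ x ∈ coset α, cls x * cls x = coset (α ^ 2) := by
  classical
  obtain ⟨s, k, hpat, hk, μ, hμ⟩ := exists_pattern σ hq (Units.mk0 A.det hA)
  rw [Units.val_mk0] at hμ
  obtain ⟨e, he⟩ := exists_not_mem_D σ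
  -- a third fixed element
  obtain ⟨w, hw, hw0, hw1⟩ : ∃ w : F, σ w = w ∧ w ≠ 0 ∧ w ≠ 1 := by
    by_contra hcon
    push Not at hcon
    have h4 : 3 ≤ Nat.card {z : F // σ z = z} := by rcases hq with h | h <;> omega
    have hsub : Nat.card {z : F // σ z = z} ≤ Nat.card Bool := by
      apply Nat.card_le_card_of_injective
        (fun z : {z : F // σ z = z} => if (z : F) = 0 then true else false)
      intro a b hab
      simp only at hab
      by_cases ha : (a : F) = 0 <;> by_cases hb : (b : F) = 0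
      · exact Subtype.ext (ha.trans hb.symm)
      · simp [ha, hb] at hab
      · simp [ha, hb] at hab
      · exact Subtype.ext ((hcon a a.2 ha).trans (hcon b b.2 hb).symm)
    have : Nat.card Bool = 2 := by simp
    omega
  set X := stdM n s e with hX
  have hXdet : X.det = ∏ i : Fin n, s i := det_stdM
  have hX0 : X.det ≠ 0 := by
    rw [hXdet]; exact Finset.prod_ne_zero_iff.2 (fun i _ => hpat.ne_zero i i.2)
  have hμ0 : (μ : F) ≠ 0 := Units.ne_zero μ
  -- the element `w0`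
  set W : Matrix (Fin n) (Fin n) F := ((μ : F)⁻¹ • (A⁻¹ * X)).map σ.symm with hW
  have hWdet : W.det = 1 := by
    rw [hW, map_det', Matrix.det_smul, Matrix.det_mul, Matrix.det_nonsing_inv, hXdet, hμ,
      Fintype.card_fin, Ring.inverse_eq_inv']
    have : (μ : F)⁻¹ ^ n * (A.det⁻¹ * (A.det * (μ : F) ^ n)) = 1 := by
      rw [inv_pow]
      have := pow_ne_zero n hμ0
      field_simp
    rw [this, map_one]
  have hWσ : A * W.map σ = (μ : F)⁻¹ • X := by
    have e1 : W.map σ = (μ : F)⁻¹ • (A⁻¹ * X) := by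
      ext i j; rw [hW, Matrix.map_apply, Matrix.map_apply, RingEquiv.apply_symm_apply]
    rw [e1, Matrix.mul_smul, ← mul_assoc, Matrix.mul_nonsing_inv _ (isUnit_iff_ne_zero.2 hA), one_mul]
  set w0 : SpecialLinearGroup (Fin n) F := ⟨W, hWdet⟩ with hw0'
  have hxInd : Ind (α * MulAut.conj (mk w0)) X σ := by
    have h1 := Ind.mul hA (det_one_ne hWdet) hα (ind_conj w0)
    have h2 := Ind.smul h1 hμ0
    have e1 : (μ : F) • (A * (w0 : Matrix (Fin n) (Fin n) F).map σ) = X := by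
      show (μ : F) • (A * W.map σ) = X
      rw [hWσ, smul_smul, mul_inv_cancel₀ hμ0, one_smul]
    have e2 : (RingEquiv.refl F).trans σ = σ := by ext z; rfl
    rw [e1, e2] at h2
    exact h2
  refine ⟨α * MulAut.conj (mk w0), ⟨mk w0, rfl⟩, cls_mul_eq ⟨mk w0, rfl⟩ ?_⟩
  rintro y ⟨g0, rfl⟩
  obtain ⟨g0, rfl⟩ := mk_surj g0
  -- the matrix of `y`
  have h1 := Ind.mul hA hA hα hα
  have hAA : (A * A.map σ).det ≠ 0 := by
    rw [Matrix.det_mul, map_det']; exact mul_ne_zero hA (by simpa using hA)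
  have h2 := Ind.mul hAA (det_one_ne g0.2) h1 (ind_conj g0)
  have hμσ : (μ : F) * σ μ ≠ 0 := mul_ne_zero hμ0 (by simpa using hμ0)
  have h3 := Ind.smul h2 hμσ
  have e2 : (RingEquiv.refl F).trans (σ.trans σ) = σ.trans σ := by ext z; rfl
  rw [e2, ← pow_two] at h3
  set B := ((μ : F) * σ μ) • (A * A.map σ * (g0 : Matrix (Fin n) (Fin n) F).map (σ.trans σ)) with hB
  have hBdet : B.det = ∏ i : Fin n, (s i * σ (s i)) := by
    rw [hB, Matrix.det_smul, Matrix.det_mul, Matrix.det_mul, map_det', map_det', g0.2, map_one,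
      mul_one, Fintype.card_fin, Finset.prod_mul_distrib, ← map_prod, hμ, map_mul, map_pow]
    ring
  obtain ⟨g, P, Q, hg, hP, hQ, hBg⟩ := matrix_level (σ := σ) (τ := σ.trans σ) (fun z => rfl)
    (by obtain ⟨z, hz⟩ := hσ; exact ⟨z, hz⟩) hw hw0 hw1 hpat hk he B hBdet
  exact aut_level hX0 hxInd h3 hg hP hQ hBg

end CosetT
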