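import Pool.Agent.Helper49.Coset.Vec

/-!
Block matrices over `Fin (n+1)` and extension of `(v, φ)` to an element of `SL`.
-/

namespace CosetT

open Matrix

variable {F : Type*} [Field F] {n : ℕ}

/-- block matrix `[[a, r], [c, M]]` -/
def blk (a : F) (r c : Fin n → F) (M : Matrix (Fin n) (Fin n) F) :
    Matrix (Fin (n + 1)) (Fin (n + 1)) F :=
  Matrix.of fun i j => Fin.cases (Fin.cases a (fun j => r j) j)
    (fun i => Fin.cases (c i) (fun j => M i j) j) i

@[simp] theorem blk_zz (a : F) (r c : Fin n → F) (M : Matrix (Fin n) (Fin n) F) :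
    blk a r c M 0 0 = a := rfl
@[simp] theorem blk_zs (a : F) (r c : Fin n → F) (M : Matrix (Fin n) (Fin n) F) (j : Fin n) :
    blk a r c M 0 j.succ = r j := rfl
@[simp] theorem blk_sz (a : F) (r c : Fin n → F) (M : Matrix (Fin n) (Fin n) F) (i : Fin n) :
    blk a r c M i.succ 0 = c i := rfl
@[simp] theorem blk_ss (a : F) (r c : Fin n → F) (M : Matrix (Fin n) (Fin n) F) (i j : Fin n) :
    blk a r c M i.succ j.succ = M i j := rfl

theorem eq_blk (X : Matrix (Fin (n + 1)) (Fin (n + 1)) F) :
    X = blk (X 0 0) (fun j => X 0 j.succ) (fun i => X i.succ 0)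
      (Matrix.of fun i j => X i.succ j.succ) := by
  ext i j
  refine Fin.cases ?_ (fun i => ?_) i <;> refine Fin.cases ?_ (fun j => ?_) j <;> rfl

theorem blk_mul (a a' : F) (r c r' c' : Fin n → F) (M M' : Matrix (Fin n) (Fin n) F) :
    blk a r c M * blk a' r' c' M' =
      blk (a * a' + ∑ l, r l * c' l) (fun j => a * r' j + ∑ l, r l * M' l j)
        (fun i => c i * a' + ∑ l, M i l * c' l)
        (Matrix.of fun i j => c i * r' j + ∑ l, M i l * M' l j) := by
  ext i j
  rw [Matrix.mul_apply, Fin.sum_univ_succ]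
  refine Fin.cases ?_ (fun i => ?_) i <;> refine Fin.cases ?_ (fun j => ?_) j <;> simp

theorem blk_map (f : F ≃+* F) (a : F) (r c : Fin n → F) (M : Matrix (Fin n) (Fin n) F) :
    (blk a r c M).map f = blk (f a) (fun j => f (r j)) (fun i => f (c i)) (M.map f) := by
  ext i j
  refine Fin.cases ?_ (fun i => ?_) i <;> refine Fin.cases ?_ (fun j => ?_) j <;> simp

theorem det_blk_lower (a : F) (c : Fin n → F) (M : Matrix (Fin n) (Fin n) F) :
    (blk a 0 c M).det = a * M.det := by
  rw [Matrix.det_succ_row_zero, Fin.sum_univ_succ]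
  simp only [Fin.val_zero, pow_zero, blk_zz, one_mul, blk_zs, Pi.zero_apply, mul_zero, zero_mul,
    Finset.sum_const_zero, add_zero]
  congr 2

theorem det_blk_upper (a : F) (r : Fin n → F) (M : Matrix (Fin n) (Fin n) F) :
    (blk a r 0 M).det = a * M.det := by
  rw [← Matrix.det_transpose]
  have : (blk a r 0 M)ᵀ = blk a 0 r Mᵀ := by
    ext i j
    refine Fin.cases ?_ (fun i => ?_) i <;> refine Fin.cases ?_ (fun j => ?_) j <;> simp
  rw [this, det_blk_lower, Matrix.det_transpose]

/-- LDU factorisation of a block matrix -/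
theorem blk_ldu {a : F} (ha : a ≠ 0) (r c : Fin n → F) (M : Matrix (Fin n) (Fin n) F) :
    blk a r c M = blk 1 0 (fun i => c i / a) 1 *
      blk a 0 0 (Matrix.of fun i j => M i j - c i * r j / a) * blk 1 (fun j => r j / a) 0 1 := by
  rw [blk_mul, blk_mul]
  ext i j
  refine Fin.cases ?_ (fun i => ?_) i <;> refine Fin.cases ?_ (fun j => ?_) j <;>
    simp [Matrix.one_apply] <;> field_simp <;> ring

theorem det_blk {a : F} (ha : a ≠ 0) (r c : Fin n → F) (M : Matrix (Fin n) (Fin n) F) :
    (blk a r c M).det = a * (Matrix.of fun i j => M i j - c i * r j / a).det := by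
  conv_lhs => rw [blk_ldu ha]
  rw [Matrix.det_mul, Matrix.det_mul, det_blk_lower, det_blk_lower, det_blk_upper]
  simp

/-- Extension of `(v, φ)` with `φ v = 1` to an element of determinant one. -/
theorem exists_sl_ext (hn : 1 ≤ n) {v φ : Fin (n + 1) → F} (h : ∑ l, φ l * v l = 1) :
    ∃ g : Matrix (Fin (n + 1)) (Fin (n + 1)) F, g.det = 1 ∧ (∀ i, g i 0 = v i) ∧
      (∀ j, ∑ l, φ l * g l j = if j = 0 then 1 else 0) := by
  classical
  let ψ : (Fin (n + 1) → F) →ₗ[F] F :=
    { toFun := fun x => ∑ l, φ l * x l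
      map_add' := by intro x y; simp [mul_add, Finset.sum_add_distrib]
      map_smul' := by
        intro a x; simp only [Pi.smul_apply, smul_eq_mul, RingHom.id_apply, Finset.mul_sum]
        apply Finset.sum_congr rfl; intro l _; ring }
  have hψ : ∀ x, ψ x = ∑ l, φ l * x l := fun x => rfl
  have hψv : ψ v = 1 := by rw [hψ, h]
  have hsurj : Function.Surjective ψ := fun a => ⟨a • v, by rw [map_smul, hψv]; simp⟩
  have hrank : Module.finrank F (LinearMap.ker ψ) = n := by
    have h1 := LinearMap.finrank_range_add_finrank_ker ψ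
    rw [LinearMap.range_eq_top.2 hsurj, finrank_top, Module.finrank_self, Module.finrank_fin_fun] at h1
    omega
  let b : Module.Basis (Fin n) F (LinearMap.ker ψ) := Module.finBasisOfFinrankEq F _ hrank
  let b' : Module.Basis (Fin (n + 1)) F (Fin (n + 1) → F) := Module.Basis.mkFinCons v b
    (by
      intro c x hx hcx
      have := congrArg ψ hcx
      rw [map_add, map_smul, hψv, LinearMap.mem_ker.1 hx, map_zero] at this
      simpa using this)
    (by
      intro z
      refine ⟨-ψ z, ?_⟩
      rw [LinearMap.mem_ker, map_add, map_smul, hψv]; simp)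
  have hb0 : b' 0 = v := by simp [b', Module.Basis.coe_mkFinCons]
  have hbs : ∀ j : Fin n, ψ (b' j.succ) = 0 := by
    intro j
    have : b' j.succ = (b j : Fin (n + 1) → F) := by simp [b', Module.Basis.coe_mkFinCons]
    rw [this]
    exact LinearMap.mem_ker.1 (b j).2
  let M : Matrix (Fin (n + 1)) (Fin (n + 1)) F := Matrix.of fun i j => b' j i
  have hMdet : M.det ≠ 0 := by
    have h1 : M = (Pi.basisFun F (Fin (n + 1))).toMatrix b' := by
      ext i j; simp [M, Module.Basis.toMatrix_apply]
    rw [h1]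
    have := Module.Basis.isUnit_det (Pi.basisFun F (Fin (n + 1))) b'
    rw [Module.Basis.det_apply] at this
    exact this.ne_zero
  have hlast : (Fin.last n : Fin (n + 1)) ≠ 0 := by
    intro h0
    have := congrArg Fin.val h0
    simp at this; omega
  let d : Fin (n + 1) → F := fun i => if i = Fin.last n then M.det⁻¹ else 1
  refine ⟨M * Matrix.diagonal d, ?_, ?_, ?_⟩
  · rw [Matrix.det_mul, Matrix.det_diagonal]
    have : ∏ i, d i = M.det⁻¹ := by
      simp [d, Finset.prod_ite_eq']
    rw [this, mul_inv_cancel₀ hMdet]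
  · intro i
    rw [Matrix.mul_diagonal]
    have : d 0 = 1 := by simp [d, hlast.symm]
    rw [this, mul_one]
    simp [M, hb0]
  · intro j
    have h1 : ∑ l, φ l * (M * Matrix.diagonal d) l j = ψ (b' j) * d j := by
      rw [hψ, Finset.sum_mul]
      apply Finset.sum_congr rfl
      intro l _
      rw [Matrix.mul_diagonal]; simp [M]; ring
    rw [h1]
    refine Fin.cases ?_ (fun j => ?_) j
    · have : d 0 = 1 := by simp [d, hlast.symm]
      rw [hb0, hψv, this]; simp
    · rw [hbs]; simp

end CosetT
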