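import Mathlib

/-!
Elementary facts on a finite field `F` with an automorphism `σ`.
`D σ` is the additive subgroup `{σ z - z}` (the kernel of the trace to the fixed field).
-/

namespace CosetT

variable {F : Type*} [Field F]

/-- `z ∈ D σ` iff `z = σ a - a` for some `a`. -/
def D (σ : F ≃+* F) : AddSubgroup F :=
  (σ.toAddEquiv.toAddMonoidHom - AddMonoidHom.id F).range

theorem mem_D {σ : F ≃+* F} {z : F} : z ∈ D σ ↔ ∃ a, σ a - a = z := by
  simp [D, AddMonoidHom.mem_range]

theorem smul_mem_D {σ : F ≃+* F} {c z : F} (hc : σ c = c) (hz : z ∈ D σ) : c * z ∈ D σ := by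
  rw [mem_D] at hz ⊢
  obtain ⟨a, rfl⟩ := hz
  exact ⟨c * a, by rw [map_mul, hc]; ring⟩

theorem map_mem_D {σ : F ≃+* F} {z : F} (hz : z ∈ D σ) : σ z ∈ D σ := by
  rw [mem_D] at hz ⊢
  obtain ⟨a, rfl⟩ := hz
  exact ⟨σ a, by rw [map_sub]⟩

theorem symm_mem_D {σ : F ≃+* F} {z : F} (hz : z ∈ D σ) : σ.symm z ∈ D σ := by
  rw [mem_D] at hz ⊢
  obtain ⟨a, rfl⟩ := hz
  exact ⟨σ.symm a, by rw [map_sub]; simp⟩

theorem map_mem_D_iff {σ : F ≃+* F} {z : F} : σ z ∈ D σ ↔ z ∈ D σ :=
  ⟨fun h => by simpa using symm_mem_D h, map_mem_D⟩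

theorem symm_mem_D_iff {σ : F ≃+* F} {z : F} : σ.symm z ∈ D σ ↔ z ∈ D σ :=
  ⟨fun h => by simpa using map_mem_D h, symm_mem_D⟩

/-- A nonzero fixed multiple of a non-element of `D` is a non-element of `D`. -/
theorem smul_not_mem_D {σ : F ≃+* F} {c z : F} (hc : σ c = c) (hc0 : c ≠ 0) (hz : z ∉ D σ) :
    c * z ∉ D σ := by
  intro h
  have h2 : σ c⁻¹ = c⁻¹ := by rw [map_inv₀, hc]
  have := smul_mem_D h2 h
  rw [← mul_assoc, inv_mul_cancel₀ hc0, one_mul] at this
  exact hz this

theorem exists_not_mem_D [Finite F] (σ : F ≃+* F) : ∃ e, e ∉ D σ := by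
  by_contra hcon
  push Not at hcon
  have hs : Function.Surjective (fun a : F => σ a - a) := fun z => mem_D.1 (hcon z)
  have hi := Finite.injective_iff_surjective.2 hs
  have : (1 : F) = 0 := hi (by simp)
  exact one_ne_zero this

/-- `F = D + F₀ e` for every `e ∉ D`. -/
theorem decomp [Finite F] (σ : F ≃+* F) {e : F} (he : e ∉ D σ) (z : F) :
    ∃ a c : F, σ c = c ∧ z = (σ a - a) + c * e := by
  classical
  -- the additive homomorphism a ↦ σ a - a has kernel F₀ and range D
  let f : F →+ F := σ.toAddEquiv.toAddMonoidHom - AddMonoidHom.id F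
  have hf : ∀ a, f a = σ a - a := fun a => by simp [f]
  have hcard : Nat.card f.range * Nat.card f.ker = Nat.card F := by
    have h1 := AddSubgroup.card_eq_card_quotient_mul_card_addSubgroup f.ker
    have h2 := Nat.card_congr (QuotientAddGroup.quotientKerEquivRange f).toEquiv
    rw [h1, h2]
  let m : f.range × f.ker → F := fun p => (p.1 : F) + (p.2 : F) * e
  have hm : Function.Injective m := by
    rintro ⟨⟨d, hd⟩, ⟨c, hc⟩⟩ ⟨⟨d', hd'⟩, ⟨c', hc'⟩⟩ h
    simp only [m] at h
    have hcc : σ c = c := by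
      have := (AddMonoidHom.mem_ker).1 hc; rw [hf] at this; exact sub_eq_zero.1 this
    have hcc' : σ c' = c' := by
      have := (AddMonoidHom.mem_ker).1 hc'; rw [hf] at this; exact sub_eq_zero.1 this
    have h3 : (c - c') * e ∈ D σ := by
      have : (c - c') * e = d' - d := by linear_combination h
      rw [this]; exact sub_mem hd' hd
    have h4 : c - c' = 0 := by
      by_contra h5
      exact smul_not_mem_D (by rw [map_sub, hcc, hcc']) h5 he h3
    have h5 : c = c' := sub_eq_zero.1 h4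
    subst h5
    have h6 : d = d' := by linear_combination h
    subst h6
    rfl
  have hsurj : Function.Surjective m := by
    have : Nat.card (f.range × f.ker) = Nat.card F := by rw [Nat.card_prod, hcard]
    exact (Nat.bijective_iff_injective_and_card m).2 ⟨hm, this⟩ |>.2
  obtain ⟨⟨⟨d, hd⟩, ⟨c, hc⟩⟩, h⟩ := hsurj z
  obtain ⟨a, ha⟩ := hd
  refine ⟨a, c, ?_, ?_⟩
  · have := (AddMonoidHom.mem_ker).1 hc
    rw [hf] at this; exact sub_eq_zero.1 this
  · rw [hf] at ha
    simp only [m] at h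
    rw [ha, h]

/-- If `κ σ z ≠ z` for `z ≠ 0` then `z ↦ κ σ z - z` is onto. -/
theorem surj_twist [Finite F] (σ : F ≃+* F) {κ : F} (hκ : ∀ z, z ≠ 0 → κ * σ z ≠ z) (w : F) :
    ∃ a, κ * σ a - a = w := by
  have hi : Function.Injective (fun a : F => κ * σ a - a) := by
    intro a b h
    simp only at h
    by_contra hab
    apply hκ (a - b) (sub_ne_zero.2 hab)
    rw [map_sub]
    linear_combination h
  obtain ⟨a, ha⟩ := (Finite.injective_iff_surjective.1 hi) w
  exact ⟨a, ha⟩

end CosetT
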