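import Pool.Agent.Helper49.Coset.Std

/-!
Matrix level: every `B` with the right determinant is twisted-conjugate to a product of two
conjugates of the standard matrix; choice of the eigenvalue pattern.
-/

namespace CosetT

open Matrix

variable {F : Type*} [Field F] {n : ℕ}

/-- the matrix level theorem -/
theorem matrix_level [Finite F] {σ τ : F ≃+* F} (hτσ : ∀ z, τ z = σ (σ z)) (hτ : ∃ z, τ z ≠ z)
    {w : F} (hw : σ w = w) (hw0 : w ≠ 0) (hw1 : w ≠ 1)
    {s : ℕ → F} {e : F} {k : ℕ} (h : Pat n k σ s) (hk : k + 2 ≤ n) (he : e ∉ D σ)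
    (B : Matrix (Fin n) (Fin n) F) (hB : B.det = ∏ i : Fin n, (s i * σ (s i))) :
    ∃ g P Q : Matrix (Fin n) (Fin n) F, g.det = 1 ∧ SConj σ P (stdM n s e) ∧
      SConj σ Q (stdM n s e) ∧ B * g.map τ = g * (P * Q.map σ) := by
  obtain ⟨m, rfl⟩ : ∃ m, n = m + 1 := ⟨n - 1, by omega⟩
  obtain ⟨g, L, U, hg, hL, hU, hdec, hpos, -⟩ := gauss hτ (σ := σ)
    (fun z hz => by rw [hτσ, hz, hz]) hw hw0 hw1 m B (fun i : Fin (m + 1) => s i * σ (s i))
    (fun i => mul_ne_zero (h.ne_zero i i.2) (by simpa using h.ne_zero i i.2)) hB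
    (fun _ => 1) (fun _ => 1) (fun h0 => one_ne_zero (congrFun h0 0))
    (fun h0 => one_ne_zero (congrFun h0 0)) 1 1 one_ne_zero one_ne_zero
  set U' : Matrix (Fin (m + 1)) (Fin (m + 1)) F := U.map σ.symm with hU'
  have hU'U : UpperUni U' := by
    constructor
    · intro i; rw [hU', Matrix.map_apply, hU.1, map_one]
    · intro i j hij; rw [hU', Matrix.map_apply, hU.2 _ _ hij, map_zero]
  have hU's : U'.map σ = U := by
    ext i j; rw [hU', Matrix.map_apply, Matrix.map_apply, RingEquiv.apply_symm_apply]
  refine ⟨g, L * Matrix.diagonal (fun i : Fin (m + 1) => s i),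
    Matrix.diagonal (fun i : Fin (m + 1) => s i) * U', hg, ?_, ?_, ?_⟩
  · refine sconj_lower h (by omega) he hL ?_
    intro i hi
    exact (hpos i (by omega)).1
  · refine sconj_upper h (by omega) he hU'U ?_
    intro i hi
    rw [hU', Matrix.map_apply, symm_mem_D_iff]
    exact (hpos i (by omega)).2
  · rw [hdec]
    congr 1
    have e1 : (Matrix.diagonal (fun i : Fin (m + 1) => s i) * U').map σ =
        Matrix.diagonal (fun i : Fin (m + 1) => σ (s i)) * U := by
      have e2 : (Matrix.diagonal (fun i : Fin (m + 1) => s i) * U').map σ =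
        σ.toRingHom.mapMatrix (Matrix.diagonal (fun i : Fin (m + 1) => s i) * U') := rfl
      rw [e2, map_mul]
      congr 1
      exact Matrix.diagonal_map (map_zero σ)
    rw [e1, ← Matrix.diagonal_mul_diagonal]
    simp only [Matrix.mul_assoc]

/-! ### separation of powers of a generator -/

/-- the number of nonzero fixed elements -/
noncomputable def qfix (σ : F ≃+* F) : ℕ := Nat.card {z : F // σ z = z}

/-- the homomorphism `z ↦ z / σ z` on units -/
def normHom (σ : F ≃+* F) : Fˣ →* Fˣ where
  toFun z := z / Units.map σ.toRingHom.toMonoidHom z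
  map_one' := by simp
  map_mul' x y := by
    rw [map_mul, mul_div_mul_comm]

theorem card_ker_normHom [Finite F] (σ : F ≃+* F) : Nat.card (normHom σ).ker + 1 = qfix σ := by
  classical
  have hmem : ∀ z : Fˣ, z ∈ (normHom σ).ker ↔ σ (z : F) = z := by
    intro z
    rw [MonoidHom.mem_ker]
    show z / Units.map σ.toRingHom.toMonoidHom z = 1 ↔ _
    rw [div_eq_one]
    constructor
    · intro h
      have := congrArg Units.val h
      simpa using this.symm
    · intro h
      ext
      simpa using h.symm
  -- bijection  {z // σ z = z} ≃ Option ker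
  let f : Option (normHom σ).ker → {z : F // σ z = z} := fun o =>
    match o with
    | none => ⟨0, map_zero σ⟩
    | some z => ⟨(z : Fˣ), (hmem _).1 z.2⟩
  have hf : Function.Bijective f := by
    constructor
    · intro a b hab
      cases a with
      | none =>
        cases b with
        | none => rfl
        | some b =>
          exfalso
          have := congrArg Subtype.val hab
          simp only [f] at this
          exact Units.ne_zero _ this.symm
      | some a =>
        cases b with
        | none =>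
          exfalso
          have := congrArg Subtype.val hab
          simp only [f] at this
          exact Units.ne_zero _ this
        | some b =>
          have := congrArg Subtype.val hab
          simp only [f] at this
          congr 1
          exact Subtype.ext (Units.ext this)
    · rintro ⟨z, hz⟩
      by_cases h0 : z = 0
      · exact ⟨none, by simp [f, h0]⟩
      · refine ⟨some ⟨Units.mk0 z h0, (hmem _).2 (by simpa using hz)⟩, ?_⟩
        simp [f]
  have h1 := Nat.card_congr (Equiv.ofBijective f hf)
  rw [Finite.card_option] at h1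
  exact h1

/-- if `ζ^b z = ζ^a σ z` then `a ≡ b` modulo `q₀ - 1`. -/
theorem zpow_sep [Finite F] (σ : F ≃+* F) {ζ : Fˣ} (hζ : ∀ x, x ∈ Subgroup.zpowers ζ)
    {a b : ℤ} {z : F} (hz : z ≠ 0) (h : ((ζ ^ a : Fˣ) : F) * σ z = ((ζ ^ b : Fˣ) : F) * z) :
    ((qfix σ : ℤ) - 1) ∣ a - b := by
  have hcard := card_ker_normHom σ
  -- ζ^(a-b) = normHom z
  have h1 : ζ ^ (a - b) = normHom σ (Units.mk0 z hz) := by
    ext
    show _ = ((Units.mk0 z hz / Units.map σ.toRingHom.toMonoidHom (Units.mk0 z hz) : Fˣ) : F)
    rw [_root_.zpow_sub, Units.val_mul, Units.val_inv_eq_inv_val, Units.val_div_eq_div_val]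
    have hσz : σ z ≠ 0 := by simpa using hz
    have : ((Units.map σ.toRingHom.toMonoidHom (Units.mk0 z hz) : Fˣ) : F) = σ z := rfl
    rw [this]
    have hb : ((ζ ^ b : Fˣ) : F) ≠ 0 := Units.ne_zero _
    show ((ζ ^ a : Fˣ) : F) * (((ζ ^ b : Fˣ) : F))⁻¹ = z / σ z
    field_simp
    rw [h]
  have h2 : (ζ ^ (a - b)) ^ (Nat.card (normHom σ).range) = 1 := by
    have hm : normHom σ (Units.mk0 z hz) ∈ (normHom σ).range := ⟨_, rfl⟩
    rw [h1]
    have := pow_card_eq_one' (x := (⟨_, hm⟩ : (normHom σ).range))
    have := congrArg Subtype.val this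
    simpa using this
  have h3 : Nat.card (normHom σ).range * Nat.card (normHom σ).ker = Nat.card Fˣ := by
    have e1 := Subgroup.card_eq_card_quotient_mul_card_subgroup (normHom σ).ker
    have e2 := Nat.card_congr (QuotientGroup.quotientKerEquivRange (normHom σ)).toEquiv
    rw [e1, e2]
  have h4 : orderOf ζ = Nat.card Fˣ := orderOf_eq_card_of_forall_mem_zpowers hζ
  have h5 : (orderOf ζ : ℤ) ∣ (a - b) * (Nat.card (normHom σ).range : ℤ) := by
    rw [orderOf_dvd_iff_zpow_eq_one, _root_.zpow_mul, zpow_natCast]; exact h2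
  rw [h4, ← h3] at h5
  push_cast at h5
  have h6 : (Nat.card (normHom σ).range : ℤ) ≠ 0 := by
    have : 0 < Nat.card (normHom σ).range := Nat.card_pos
    omega
  have h7 : (Nat.card (normHom σ).ker : ℤ) ∣ a - b := by
    obtain ⟨t, ht⟩ := h5
    refine ⟨t, ?_⟩
    have : (Nat.card (normHom σ).range : ℤ) * (a - b) =
      (Nat.card (normHom σ).range : ℤ) * ((Nat.card (normHom σ).ker : ℤ) * t) := by
      linear_combination ht
    exact mul_left_cancel₀ h6 this
  have h8 : (qfix σ : ℤ) - 1 = (Nat.card (normHom σ).ker : ℤ) := by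
    rw [← hcard]; push_cast; ring
  rw [h8]; exact h7

/-- build a pattern from integer exponents -/
theorem pat_of_exponents [Finite F] (σ : F ≃+* F) {ζ : Fˣ} (hζ : ∀ x, x ∈ Subgroup.zpowers ζ)
    {n k : ℕ} (a : ℕ → ℤ) (ha0 : ∀ i, i < k → a i = 0)
    (ha : ∀ i j, i < n → j < n → i ≠ j → (k ≤ i ∨ k ≤ j) → ¬ ((qfix σ : ℤ) - 1) ∣ a j - a i) :
    Pat n k σ (fun i => ((ζ ^ a i : Fˣ) : F)) where
  ne_zero := fun i _ => Units.ne_zero _
  one := fun i hi => by simp [ha0 i hi]
  sep := by
    intro i j hi hj hij hk z hz h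
    exact ha i j hi hj hij hk (zpow_sep σ hζ hz h)

theorem dvd_small {N x : ℤ} (hN : 0 < N) (hx : x ≠ 0) (h1 : -N < x) (h2 : x < N) : ¬ N ∣ x := by
  rintro ⟨t, rfl⟩
  rcases lt_trichotomy t 0 with ht | ht | ht
  · have : N * t ≤ N * (-1) := mul_le_mul_of_nonneg_left (by omega) hN.le
    omega
  · subst ht; simp at hx
  · have : N * 1 ≤ N * t := mul_le_mul_of_nonneg_left (by omega) hN.le
    omega

theorem exists_pattern [Finite F] (σ : F ≃+* F) {n : ℕ}
    (hq : (n = 2 ∧ 4 ≤ qfix σ) ∨ (3 ≤ n ∧ 5 ≤ qfix σ)) (δ : Fˣ) :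
    ∃ (s : ℕ → F) (k : ℕ), Pat n k σ s ∧ k + 2 ≤ n ∧
      ∃ μ : Fˣ, ∏ i : Fin n, s i = (δ : F) * (μ : F) ^ n := by
  obtain ⟨ζ, hζ⟩ : ∃ ζ : Fˣ, ∀ x, x ∈ Subgroup.zpowers ζ := IsCyclic.exists_generator
  obtain ⟨e, he⟩ := Subgroup.mem_zpowers_iff.1 (hζ δ)
  set N : ℤ := (qfix σ : ℤ) - 1 with hN
  have key3 : ∀ m : ℕ, 4 ≤ N → ∀ (α e' : ℤ) (t : ℤ), e' = e + (m + 2 : ℕ) * t → ¬ N ∣ α →
      ¬ N ∣ e' - α → ¬ N ∣ e' - 2 * α →
      ∃ (s : ℕ → F) (k : ℕ), Pat (m + 2) k σ s ∧ k + 2 ≤ m + 2 ∧
      ∃ μ : Fˣ, ∏ i : Fin (m + 2), s i = (δ : F) * (μ : F) ^ (m + 2) := by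
    intro m hN4 α e' t he' h1 h2 h3
    refine ⟨fun i => ((ζ ^ (if i < m then 0 else if i = m then α else e' - α : ℤ) : Fˣ) : F), m,
      ?_, le_refl _, ζ ^ t, ?_⟩
    · apply pat_of_exponents σ hζ
      · intro i hi; simp [hi]
      · intro i j hi hj hij hk
        by_cases hi1 : i < m
        · rw [if_pos hi1, if_neg (by omega : ¬ j < m)]
          by_cases hj1 : j = m
          · rw [if_pos hj1, sub_zero]; exact h1
          · rw [if_neg hj1, sub_zero]; exact h2
        · rw [if_neg hi1]
          by_cases hj1 : j < m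
          · rw [if_pos hj1]
            by_cases hi2 : i = m
            · rw [if_pos hi2, zero_sub, dvd_neg]; exact h1
            · rw [if_neg hi2, zero_sub, dvd_neg]; exact h2
          · rw [if_neg hj1]
            by_cases hi2 : i = m
            · rw [if_pos hi2, if_neg (by omega)]
              intro h; apply h3
              have : e' - 2 * α = e' - α - α := by ring
              rw [this]; exact h
            · rw [if_neg hi2, if_pos (by omega)]
              intro h; apply h3
              have : e' - 2 * α = -(α - (e' - α)) := by ring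
              rw [this, dvd_neg]; exact h
    · rw [Fin.prod_univ_eq_prod_range
        (fun i => ((ζ ^ (if i < m then 0 else if i = m then α else e' - α : ℤ) : Fˣ) : F)) (m + 2),
        Finset.prod_range_succ, Finset.prod_range_succ, Finset.prod_eq_one]
      · rw [if_neg (lt_irrefl m), if_pos rfl, if_neg (by omega : ¬ m + 1 < m),
          if_neg (by omega : ¬ m + 1 = m), one_mul, ← Units.val_mul, ← _root_.zpow_add,
          ← Units.val_pow_eq_pow_val, ← Units.val_mul, ← he, ← zpow_natCast, ← _root_.zpow_mul,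
          ← _root_.zpow_add]
        congr 2
        rw [he']; push_cast; ring
      · intro i hi
        rw [Finset.mem_range] at hi
        simp [hi]
  rcases hq with ⟨rfl, hq⟩ | ⟨hn, hq⟩
  · -- n = 2
    have hN3 : 3 ≤ N := by omega
    have key2 : ∀ (e' t : ℤ), e' = e + 2 * t → ¬ N ∣ e' →
      ∃ (s : ℕ → F) (k : ℕ), Pat 2 k σ s ∧ k + 2 ≤ 2 ∧
      ∃ μ : Fˣ, ∏ i : Fin 2, s i = (δ : F) * (μ : F) ^ 2 := by
      intro e' t he' h1
      refine ⟨fun i => ((ζ ^ (if i = 0 then 0 else e' : ℤ) : Fˣ) : F), 0, ?_, le_refl _, ζ ^ t, ?_⟩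
      · apply pat_of_exponents σ hζ
        · intro i hi; omega
        · intro i j hi hj hij hk
          by_cases hi1 : i = 0
          · rw [if_pos hi1, if_neg (by omega), sub_zero]; exact h1
          · rw [if_neg hi1, if_pos (by omega), zero_sub, dvd_neg]; exact h1
      · rw [Fin.prod_univ_two]
        simp only [Fin.val_zero, if_true, Fin.val_one, one_ne_zero, if_false, zpow_zero,
          Units.val_one, one_mul]
        rw [← Units.val_pow_eq_pow_val, ← Units.val_mul, ← he, ← zpow_natCast, ← _root_.zpow_mul,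
          ← _root_.zpow_add]
        congr 2
        rw [he']; push_cast; ring
    by_cases h : N ∣ e
    · refine key2 (e + 2 * 1) 1 rfl ?_
      intro h2
      have h3 : N ∣ 2 := by
        have := dvd_sub h2 h
        have e1 : e + 2 * 1 - e = 2 := by ring
        rw [e1] at this; exact this
      exact dvd_small (by omega) (by omega) (by omega) (by omega) h3
    · exact key2 e 0 (by ring) h
  · obtain ⟨m, rfl⟩ : ∃ m, n = m + 2 := ⟨n - 2, by omega⟩
    have hN4 : 4 ≤ N := by omega
    have d1 : ¬ N ∣ 1 := dvd_small (by omega) (by omega) (by omega) (by omega)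
    have d2 : ¬ N ∣ 2 := dvd_small (by omega) (by omega) (by omega) (by omega)
    have d3 : ¬ N ∣ 3 := dvd_small (by omega) (by omega) (by omega) (by omega)
    by_cases h1 : N ∣ e - 1
    · -- α = 2
      refine key3 m hN4 2 e 0 (by ring) d2 ?_ ?_
      · intro h; apply d1
        have := dvd_sub h1 h
        have e1 : e - 1 - (e - 2) = 1 := by ring
        rwa [e1] at this
      · intro h; apply d3
        have := dvd_sub h1 h
        have e1 : e - 1 - (e - 2 * 2) = 3 := by ring
        rwa [e1] at this
    · by_cases h2 : N ∣ e - 2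
      · by_cases hN4' : N = 4
        · -- q₀ = 5, e ≡ 2
          rcases Nat.lt_or_ge m 2 with hm | hm
          · -- n = 3
            have hm1 : m = 1 := by omega
            subst hm1
            refine key3 1 hN4 2 (e + 3) 1 (by push_cast; ring) d2 ?_ ?_
            · rw [hN4'] at h2 ⊢; omega
            · rw [hN4'] at h2 ⊢; omega
          · -- four blocks
            obtain ⟨l, rfl⟩ : ∃ l, m = l + 1 := ⟨m - 1, by omega⟩
            refine ⟨fun i => ((ζ ^ (if i < l then 0 else if i = l then 1 else if i = l + 1 then 2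
              else e - 3 : ℤ) : Fˣ) : F), l, ?_, by omega, 1, ?_⟩
            · apply pat_of_exponents σ hζ
              · intro i hi; simp [hi]
              · intro i j hi hj hij hk
                rw [← hN, hN4']
                rw [hN4'] at h2
                split_ifs <;> omega
            · rw [Fin.prod_univ_eq_prod_range
                (fun i => ((ζ ^ (if i < l then 0 else if i = l then 1 else if i = l + 1 then 2
                  else e - 3 : ℤ) : Fˣ) : F)) (l + 1 + 2),
                Finset.prod_range_succ, Finset.prod_range_succ, Finset.prod_range_succ,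
                Finset.prod_eq_one]
              · rw [if_neg (lt_irrefl l), if_pos rfl, if_neg (by omega : ¬ l + 1 < l),
                  if_neg (by omega : ¬ l + 1 = l), if_pos rfl, if_neg (by omega : ¬ l + 1 + 1 < l),
                  if_neg (by omega : ¬ l + 1 + 1 = l), if_neg (by omega : ¬ l + 1 + 1 = l + 1),
                  one_mul, ← Units.val_mul, ← _root_.zpow_add, ← Units.val_mul, ← _root_.zpow_add,
                  ← he, Units.val_one, one_pow, mul_one]
                congr 2
                ring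
              · intro i hi
                rw [Finset.mem_range] at hi
                simp [hi]
        · -- N ≥ 5, α = 3
          have d4 : ¬ N ∣ 4 := dvd_small (by omega) (by omega) (by omega) (by omega)
          refine key3 m hN4 3 e 0 (by ring) d3 ?_ ?_
          · intro h; apply d1
            have := dvd_sub h2 h
            have e1 : e - 2 - (e - 3) = 1 := by ring
            rwa [e1] at this
          · intro h; apply d4
            have := dvd_sub h2 h
            have e1 : e - 2 - (e - 2 * 3) = 4 := by ring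
            rwa [e1] at this
      · -- α = 1
        refine key3 m hN4 1 e 0 (by ring) d1 h1 ?_
        simpa using h2

end CosetT
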