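import Pool.Agent.Helper49.Coset.Field

/-!
A lower triangular semilinear map whose subdiagonal entries inside the blocks of equal
eigenvalues are outside `D σ` is conjugate to a standard one.
-/

namespace CosetT

open Matrix

variable {n : ℕ} {F : Type*} [Field F]

/-- the semilinear map `v ↦ M σ(v)` -/
def act (σ : F ≃+* F) (M : Matrix (Fin n) (Fin n) F) (v : Fin n → F) : Fin n → F :=
  M *ᵥ (fun i => σ (v i))

theorem act_apply (σ : F ≃+* F) (M : Matrix (Fin n) (Fin n) F) (v : Fin n → F) (i : Fin n) :
    act σ M v i = ∑ j, M i j * σ (v j) := by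
  simp [act, Matrix.mulVec, dotProduct]

theorem act_add (σ : F ≃+* F) (M : Matrix (Fin n) (Fin n) F) (v w : Fin n → F) :
    act σ M (v + w) = act σ M v + act σ M w := by
  unfold act
  rw [← Matrix.mulVec_add]
  congr 1; ext i; simp

theorem act_smul (σ : F ≃+* F) (M : Matrix (Fin n) (Fin n) F) (a : F) (v : Fin n → F) :
    act σ M (a • v) = σ a • act σ M v := by
  unfold act
  rw [← Matrix.mulVec_smul]
  congr 1; ext i; simp

theorem act_zero (σ : F ≃+* F) (M : Matrix (Fin n) (Fin n) F) :
    act σ M 0 = 0 := by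
  unfold act
  have : (fun i => σ ((0 : Fin n → F) i)) = 0 := by ext i; simp
  rw [this, Matrix.mulVec_zero]

/-- vectors whose first `j` coordinates vanish -/
def Vg (n : ℕ) (F : Type*) [Field F] (j : ℕ) : Submodule F (Fin n → F) where
  carrier := {v | ∀ i : Fin n, (i : ℕ) < j → v i = 0}
  add_mem' := by
    intro a b ha hb i hi
    simp [ha i hi, hb i hi]
  zero_mem' := by intro i _; rfl
  smul_mem' := by
    intro c x hx i hi
    simp [hx i hi]

theorem mem_Vg {j : ℕ} {v : Fin n → F} : v ∈ Vg n F j ↔ ∀ i : Fin n, (i : ℕ) < j → v i = 0 :=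
  Iff.rfl

theorem Vg_mono {j k : ℕ} (h : j ≤ k) : Vg n F k ≤ Vg n F j :=
  fun _ hv i hi => hv i (lt_of_lt_of_le hi h)

theorem Vg_top {v : Fin n → F} (h : v ∈ Vg n F n) : v = 0 := by
  ext i; exact h i i.2

theorem mem_Vg_succ {j : ℕ} (hj : j < n) {v : Fin n → F} (h : v ∈ Vg n F j)
    (h0 : v ⟨j, hj⟩ = 0) : v ∈ Vg n F (j + 1) := by
  intro i hi
  rcases Nat.lt_succ_iff_lt_or_eq.1 hi with h1 | h1
  · exact h i h1
  · have : i = ⟨j, hj⟩ := Fin.ext h1
    rw [this]; exact h0

/-- lower unitriangular -/
def LowerUni (L : Matrix (Fin n) (Fin n) F) : Prop :=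
  (∀ i, L i i = 1) ∧ ∀ i j, i < j → L i j = 0

/-- upper unitriangular -/
def UpperUni (L : Matrix (Fin n) (Fin n) F) : Prop :=
  (∀ i, L i i = 1) ∧ ∀ i j, j < i → L i j = 0

/-- the properties of the eigenvalue pattern -/
structure Pattern (n : ℕ) (σ : F ≃+* F) (s : ℕ → F) : Prop where
  ne_zero : ∀ i, i < n → s i ≠ 0
  contig : ∀ i j k, i < j → j < k → k < n → s i = s k → s j = s i
  sep : ∀ i j, i < n → j < n → s i ≠ s j → ∀ z, z ≠ 0 → s j * σ z ≠ s i * z

/-- coefficient in the standard form -/
noncomputable def coef (n : ℕ) (s : ℕ → F) (e : F) (i : ℕ) : F := by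
  classical exact if i + 1 < n ∧ s (i + 1) = s i then s i * e else 0

theorem coef_pos {s : ℕ → F} {e : F} {i : ℕ} (h : i + 1 < n ∧ s (i + 1) = s i) :
    coef n s e i = s i * e := by
  unfold coef; rw [if_pos h]

theorem coef_neg {s : ℕ → F} {e : F} {i : ℕ} (h : ¬ (i + 1 < n ∧ s (i + 1) = s i)) :
    coef n s e i = 0 := by
  unfold coef; rw [if_neg h]

/-- a chain of vectors from index `k` on -/
structure Chain (σ : F ≃+* F) (M : Matrix (Fin n) (Fin n) F) (s : ℕ → F) (e : F)
    (f : ℕ → Fin n → F) (k : ℕ) : Prop where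
  mem : ∀ i, k ≤ i → i < n → f i ∈ Vg n F i
  fix : ∀ i (hi : i < n), k ≤ i → σ (f i ⟨i, hi⟩) = f i ⟨i, hi⟩
  ne : ∀ i (hi : i < n), k ≤ i → f i ⟨i, hi⟩ ≠ 0
  act : ∀ i, k ≤ i → i < n → CosetT.act σ M (f i) = s i • f i + coef n s e i • f (i + 1)

theorem solveT [Finite F] {σ : F ≃+* F} {M : Matrix (Fin n) (Fin n) F} {s : ℕ → F} {e : F}
    (he : e ∉ D σ) (hs : Pattern n σ s) {f : ℕ → Fin n → F} {k : ℕ}
    (hf : Chain σ M s e f (k + 1)) (hkn : k < n) :
    ∀ t j : ℕ, j + t = n → k < j → ∀ w ∈ Vg n F j,
      ∃ u ∈ Vg n F j, ∃ c : F, σ c = c ∧ (¬ (j < n ∧ s j = s k) → c = 0) ∧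
        w = ((s k)⁻¹ • act σ M u - u) + (c * e) • f j := by
  intro t
  induction t with
  | zero =>
    intro j hj hkj w hw
    have : j = n := by omega
    subst this
    refine ⟨0, Submodule.zero_mem _, 0, map_zero _, fun _ => rfl, ?_⟩
    rw [Vg_top hw, act_zero]; simp
  | succ t ih =>
    intro j hj hkj w hw
    have hjn : j < n := by omega
    have hp := hf.ne j hjn (by omega)
    have hpf := hf.fix j hjn (by omega)
    have hact := hf.act j (by omega) hjn
    have hfj := hf.mem j (by omega) hjn
    have hsk := hs.ne_zero k hkn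
    have hsj := hs.ne_zero j hjn
    set p := f j ⟨j, hjn⟩ with hpdef
    set z := w ⟨j, hjn⟩ / p with hz
    have hw1 : w - z • f j ∈ Vg n F (j + 1) := by
      apply mem_Vg_succ hjn
      · exact Submodule.sub_mem _ hw (Submodule.smul_mem _ _ hfj)
      · simp only [Pi.sub_apply, Pi.smul_apply, smul_eq_mul]
        rw [← hpdef, hz, div_mul_cancel₀ _ hp, sub_self]
    have hfj1 : ∀ a : F, (a * coef n s e j) • f (j + 1) ∈ Vg n F (j + 1) := by
      intro a
      by_cases hI : j + 1 < n ∧ s (j + 1) = s j
      · exact Submodule.smul_mem _ _ (hf.mem (j + 1) (by omega) hI.1)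
      · rw [coef_neg hI, mul_zero, zero_smul]; exact Submodule.zero_mem _
    -- value of the operator on a • f j
    have hval : ∀ a : F, (s k)⁻¹ • act σ M (a • f j) - a • f j =
        ((s k)⁻¹ * s j * σ a - a) • f j + ((s k)⁻¹ * σ a * coef n s e j) • f (j + 1) := by
      intro a
      rw [act_smul, hact]
      ext i
      simp only [Pi.sub_apply, Pi.smul_apply, Pi.add_apply, smul_eq_mul]
      ring
    have hadd : ∀ u v : Fin n → F, (s k)⁻¹ • act σ M (u + v) - (u + v) =
        ((s k)⁻¹ • act σ M u - u) + ((s k)⁻¹ • act σ M v - v) := by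
      intro u v
      rw [act_add]
      ext i
      simp only [Pi.sub_apply, Pi.smul_apply, Pi.add_apply, smul_eq_mul]
      ring
    by_cases hsjk : s j = s k
    · obtain ⟨a, c, hc, hzac⟩ := decomp σ he z
      -- new remainder
      obtain ⟨u', hu', c', hc', hc0', hw''⟩ := ih (j + 1) (by omega) (by omega)
        (w - z • f j - ((s k)⁻¹ * σ a * coef n s e j) • f (j + 1))
        (Submodule.sub_mem _ hw1 (hfj1 _))
      by_cases hI : j + 1 < n ∧ s (j + 1) = s j
      · refine ⟨a • f j + u' + c' • f j, ?_, c, hc, ?_, ?_⟩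
        · refine Submodule.add_mem _ (Submodule.add_mem _ (Submodule.smul_mem _ _ hfj)
            (Vg_mono (Nat.le_succ j) hu')) (Submodule.smul_mem _ _ hfj)
        · intro h; exact absurd ⟨hjn, hsjk⟩ h
        · rw [hadd, hadd, hval, hval, hc', coef_pos hI, hsjk]
          have hkk : (s k)⁻¹ * s k = 1 := inv_mul_cancel₀ hsk
          rw [coef_pos hI, hsjk] at hw''
          ext i
          have hi := congrFun hw'' i
          simp only [Pi.sub_apply, Pi.smul_apply, Pi.add_apply, smul_eq_mul] at hi ⊢
          rw [hzac] at hi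
          have e1 : (s k)⁻¹ * s k * σ a = σ a := by rw [hkk, one_mul]
          have e2 : (s k)⁻¹ * s k * c' = c' := by rw [hkk, one_mul]
          have e3 : (s k)⁻¹ * σ a * (s k * e) = σ a * e := by
            rw [show (s k)⁻¹ * σ a * (s k * e) = ((s k)⁻¹ * s k) * (σ a * e) by ring, hkk, one_mul]
          have e4 : (s k)⁻¹ * c' * (s k * e) = c' * e := by
            rw [show (s k)⁻¹ * c' * (s k * e) = ((s k)⁻¹ * s k) * (c' * e) by ring, hkk, one_mul]
          rw [e1, e2, e3, e4]
          rw [e3] at hi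
          linear_combination hi
      · have hc0 : c' = 0 := by
          apply hc0'
          rintro ⟨h1, h2⟩
          exact hI ⟨h1, by rw [h2, hsjk]⟩
        refine ⟨a • f j + u', ?_, c, hc, ?_, ?_⟩
        · exact Submodule.add_mem _ (Submodule.smul_mem _ _ hfj) (Vg_mono (Nat.le_succ j) hu')
        · intro h; exact absurd ⟨hjn, hsjk⟩ h
        · rw [hadd, hval, coef_neg hI, hsjk]
          rw [coef_neg hI, hc0] at hw''
          have hkk : (s k)⁻¹ * s k = 1 := inv_mul_cancel₀ hsk
          ext i
          have hi := congrFun hw'' i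
          simp only [Pi.sub_apply, Pi.smul_apply, Pi.add_apply, smul_eq_mul] at hi ⊢
          rw [hzac] at hi
          have e1 : (s k)⁻¹ * s k * σ a = σ a := by rw [hkk, one_mul]
          rw [e1]
          linear_combination hi
    · -- different eigenvalues
      obtain ⟨a, ha⟩ := surj_twist σ (κ := (s k)⁻¹ * s j) (by
        intro z hz0 h
        apply hs.sep k j hkn hjn (fun h => hsjk h.symm) z hz0
        rw [← h, h]
        have : s k * ((s k)⁻¹ * s j * σ z) = s j * σ z := by
          rw [← mul_assoc, ← mul_assoc, mul_inv_cancel₀ hsk, one_mul]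
        rw [h] at this
        rw [this]) z
      obtain ⟨u', hu', c', hc', hc0', hw''⟩ := ih (j + 1) (by omega) (by omega)
        (w - z • f j - ((s k)⁻¹ * σ a * coef n s e j) • f (j + 1))
        (Submodule.sub_mem _ hw1 (hfj1 _))
      have hc0 : c' = 0 := by
        apply hc0'
        rintro ⟨h1, h2⟩
        exact hsjk (hs.contig k j (j + 1) hkj (Nat.lt_succ_self j) h1 h2.symm)
      refine ⟨a • f j + u', ?_, 0, map_zero _, fun _ => rfl, ?_⟩
      · exact Submodule.add_mem _ (Submodule.smul_mem _ _ hfj) (Vg_mono (Nat.le_succ j) hu')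
      · rw [hadd, hval, ha]
        rw [hc0] at hw''
        ext i
        have hi := congrFun hw'' i
        simp only [Pi.sub_apply, Pi.smul_apply, Pi.add_apply, smul_eq_mul] at hi ⊢
        linear_combination hi

end CosetT

namespace CosetT

open Matrix

variable {n : ℕ} {F : Type*} [Field F]

/-- first coordinate of the action of a lower triangular matrix -/
theorem act_coord {σ : F ≃+* F} {L : Matrix (Fin n) (Fin n) F} (hL : LowerUni L) {s : ℕ → F}
    {j : ℕ} (hj : j < n) {u : Fin n → F} (hu : u ∈ Vg n F j) :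
    act σ (L * Matrix.diagonal (fun i : Fin n => s i)) u ⟨j, hj⟩ = s j * σ (u ⟨j, hj⟩) := by
  rw [act_apply, Finset.sum_eq_single (⟨j, hj⟩ : Fin n)]
  · rw [Matrix.mul_diagonal, hL.1]; simp
  · intro i _ hi
    rcases lt_trichotomy i ⟨j, hj⟩ with h | h | h
    · rw [mem_Vg.1 hu i h, map_zero, mul_zero]
    · exact absurd h hi
    · rw [Matrix.mul_diagonal, hL.2 _ _ h]; simp
  · intro h; exact absurd (Finset.mem_univ _) h

theorem exists_chain [Finite F] {σ : F ≃+* F} {L : Matrix (Fin n) (Fin n) F} {s : ℕ → F} {e : F}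
    (he : e ∉ D σ) (hs : Pattern n σ s) (hL : LowerUni L)
    (hreg : ∀ i (h : i + 1 < n), s (i + 1) = s i →
      L ⟨i + 1, h⟩ ⟨i, Nat.lt_of_succ_lt h⟩ ∉ D σ) :
    ∀ t k : ℕ, k + t = n →
      ∃ f, Chain σ (L * Matrix.diagonal (fun i : Fin n => s i)) s e f k := by
  intro t
  induction t with
  | zero =>
    intro k hk
    refine ⟨fun _ => 0, ⟨?_, ?_, ?_, ?_⟩⟩
    · intro i h1 h2; omega
    · intro i h1 h2; omega
    · intro i h1 h2; omega
    · intro i h1 h2; omega
  | succ t ih =>
    intro k hk
    have hkn : k < n := by omega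
    obtain ⟨f, hf⟩ := ih (k + 1) (by omega)
    set M := L * Matrix.diagonal (fun i : Fin n => s i) with hM
    have hsk := hs.ne_zero k hkn
    set ek : Fin n → F := Pi.single ⟨k, hkn⟩ 1 with hek
    have hactek : ∀ i, act σ M ek i = L i ⟨k, hkn⟩ * s k := by
      intro i
      have h1 : (fun i => σ (ek i)) = ek := by
        ext j
        by_cases h : j = ⟨k, hkn⟩
        · subst h; simp [hek]
        · simp [hek, Pi.single_apply, h]
      unfold act
      rw [h1, hek, Matrix.mulVec_single_one, Matrix.col_apply, hM, Matrix.mul_diagonal]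
    set w : Fin n → F := (s k)⁻¹ • act σ M ek - ek with hw
    have hwv : ∀ i, w i = L i ⟨k, hkn⟩ - ek i := by
      intro i
      simp only [hw, Pi.sub_apply, Pi.smul_apply, smul_eq_mul, hactek]
      field_simp
    have hwm : w ∈ Vg n F (k + 1) := by
      intro i hi
      rw [hwv]
      rcases Nat.lt_succ_iff_lt_or_eq.1 hi with h1 | h1
      · have h2 : i < ⟨k, hkn⟩ := h1
        rw [hL.2 _ _ h2]
        have : i ≠ ⟨k, hkn⟩ := ne_of_lt h2
        simp [hek, Pi.single_apply, this]
      · have : i = ⟨k, hkn⟩ := Fin.ext h1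
        rw [this, hL.1]; simp [hek]
    have hekm : ek ∈ Vg n F k := by
      intro i hi
      have : i ≠ ⟨k, hkn⟩ := by
        intro h; rw [h] at hi; exact absurd hi (lt_irrefl k)
      simp [hek, Pi.single_apply, this]
    obtain ⟨u, hu, c, hc, hc0, hwu⟩ := solveT he hs hf hkn t (k + 1) (by omega)
      (Nat.lt_succ_self k) (-w) (Submodule.neg_mem _ hwm)
    have hbase : act σ M (ek + u) = s k • (ek + u) + (s k * (-(c * e))) • f (k + 1) := by
      rw [act_add]
      ext i
      have hi := congrFun hwu i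
      simp only [hw, Pi.sub_apply, Pi.smul_apply, Pi.add_apply, Pi.neg_apply, smul_eq_mul] at hi ⊢
      have e1 : s k * ((s k)⁻¹ * act σ M ek i) = act σ M ek i := by
        rw [← mul_assoc, mul_inv_cancel₀ hsk, one_mul]
      have e2 : s k * ((s k)⁻¹ * act σ M u i) = act σ M u i := by
        rw [← mul_assoc, mul_inv_cancel₀ hsk, one_mul]
      have := congrArg (fun x => s k * x) hi
      simp only [mul_add, mul_sub, mul_neg, e1, e2] at this
      linear_combination -this
    have hukk : (ek + u) ⟨k, hkn⟩ = 1 := by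
      rw [Pi.add_apply, mem_Vg.1 hu ⟨k, hkn⟩ (Nat.lt_succ_self k)]
      simp [hek]
    have hum : ek + u ∈ Vg n F k := Submodule.add_mem _ hekm (Vg_mono (Nat.le_succ k) hu)
    by_cases hI : k + 1 < n ∧ s (k + 1) = s k
    · -- `c ≠ 0`
      have hcne : c ≠ 0 := by
        intro h0
        apply hreg k hI.1 hI.2
        have h1 := congrFun hwu ⟨k + 1, hI.1⟩
        rw [h0] at h1
        simp only [Pi.sub_apply, Pi.smul_apply, Pi.add_apply, Pi.neg_apply, smul_eq_mul,
          zero_mul, add_zero] at h1
        rw [hwv, hM, act_coord hL hI.1 hu] at h1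
        have h2 : ek ⟨k + 1, hI.1⟩ = 0 := by
          simp [hek, Pi.single_apply]
        have h3 : (s k)⁻¹ * s (k + 1) = 1 := by rw [hI.2, inv_mul_cancel₀ hsk]
        rw [h2, ← mul_assoc, h3, one_mul] at h1
        rw [mem_D]
        refine ⟨-u ⟨k + 1, hI.1⟩, ?_⟩
        rw [map_neg]
        linear_combination h1
      set c' := -c with hc'
      have hc'0 : c' ≠ 0 := neg_ne_zero.2 hcne
      have hc'f : σ c' = c' := by rw [hc', map_neg, hc]
      have hc'i : σ c'⁻¹ = c'⁻¹ := by rw [map_inv₀, hc'f]
      refine ⟨fun i => if i = k then c'⁻¹ • (ek + u) else f i, ⟨?_, ?_, ?_, ?_⟩⟩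
      · intro i h1 h2
        by_cases h : i = k
        · subst h; simp only [if_true]; exact Submodule.smul_mem _ _ hum
        · simp only [if_neg h]; exact hf.mem i (by omega) h2
      · intro i h2 h1
        by_cases h : i = k
        · subst h; simp only [if_true, Pi.smul_apply, hukk, smul_eq_mul, mul_one]; exact hc'i
        · simp only [if_neg h]; exact hf.fix i h2 (by omega)
      · intro i h2 h1
        by_cases h : i = k
        · subst h; simp only [if_true, Pi.smul_apply, hukk, smul_eq_mul, mul_one]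
          exact inv_ne_zero hc'0
        · simp only [if_neg h]; exact hf.ne i h2 (by omega)
      · intro i h1 h2
        by_cases h : i = k
        · subst h
          simp only [if_true]
          rw [if_neg (by omega : ¬ i + 1 = i), act_smul, hbase, coef_pos hI, hc'i]
          ext l
          simp only [Pi.smul_apply, Pi.add_apply, smul_eq_mul]
          have : c'⁻¹ * (s i * -(c * e) * f (i + 1) l) = s i * e * f (i + 1) l := by
            rw [show c'⁻¹ * (s i * -(c * e) * f (i + 1) l) =
              (c'⁻¹ * (-c)) * (s i * e * f (i + 1) l) by ring, ← hc', inv_mul_cancel₀ hc'0, one_mul]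
          rw [mul_add, this]; ring
        · simp only [if_neg h]
          rw [if_neg (by omega : ¬ i + 1 = k)]
          exact hf.act i (by omega) h2
    · have hc0' : c = 0 := hc0 (by rintro ⟨h1, h2⟩; exact hI ⟨h1, h2⟩)
      refine ⟨fun i => if i = k then (ek + u) else f i, ⟨?_, ?_, ?_, ?_⟩⟩
      · intro i h1 h2
        by_cases h : i = k
        · subst h; simp only [if_true]; exact hum
        · simp only [if_neg h]; exact hf.mem i (by omega) h2
      · intro i h2 h1
        by_cases h : i = k
        · subst h; simp only [if_true]; rw [hukk, map_one]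
        · simp only [if_neg h]; exact hf.fix i h2 (by omega)
      · intro i h2 h1
        by_cases h : i = k
        · subst h; simp only [if_true]; rw [hukk]; exact one_ne_zero
        · simp only [if_neg h]; exact hf.ne i h2 (by omega)
      · intro i h1 h2
        by_cases h : i = k
        · subst h
          simp only [if_true]
          rw [if_neg (by omega : ¬ i + 1 = i), hbase, coef_neg hI, hc0']
          simp
        · simp only [if_neg h]
          rw [if_neg (by omega : ¬ i + 1 = k)]
          exact hf.act i (by omega) h2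

/-- the standard form -/
noncomputable def stdM (n : ℕ) (s : ℕ → F) (e : F) : Matrix (Fin n) (Fin n) F :=
  Matrix.of fun i j => if i = j then s j else if (i : ℕ) = j + 1 then coef n s e j else 0

/-- Every regular lower triangular semilinear matrix is `GL`-conjugate to the standard one. -/
theorem lower_conj [Finite F] {σ : F ≃+* F} {L : Matrix (Fin n) (Fin n) F} {s : ℕ → F} {e : F}
    (he : e ∉ D σ) (hs : Pattern n σ s) (hL : LowerUni L)
    (hreg : ∀ i (h : i + 1 < n), s (i + 1) = s i →
      L ⟨i + 1, h⟩ ⟨i, Nat.lt_of_succ_lt h⟩ ∉ D σ) :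
    ∃ g : Matrix (Fin n) (Fin n) F, g.det ≠ 0 ∧
      (L * Matrix.diagonal (fun i : Fin n => s i)) * g.map σ = g * stdM n s e := by
  obtain ⟨f, hf⟩ := exists_chain he hs hL hreg n 0 (by omega)
  set M := L * Matrix.diagonal (fun i : Fin n => s i) with hM
  refine ⟨Matrix.of (fun i j => f j i), ?_, ?_⟩
  · rw [Matrix.det_of_isLowerTriangular]
    · rw [Finset.prod_ne_zero_iff]
      intro i _
      exact hf.ne i i.2 (Nat.zero_le _)
    · intro i j hij
      exact mem_Vg.1 (hf.mem j (Nat.zero_le _) j.2) i hij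
  · ext i j
    have h1 := congrFun (hf.act j (Nat.zero_le _) j.2) i
    rw [act_apply] at h1
    rw [Matrix.mul_apply, Matrix.mul_apply]
    simp only [Matrix.map_apply, Matrix.of_apply]
    rw [h1]
    simp only [Pi.add_apply, Pi.smul_apply, smul_eq_mul, stdM, Matrix.of_apply]
    by_cases hj : (j : ℕ) + 1 < n
    · rw [Finset.sum_eq_add j ⟨j + 1, hj⟩]
      · simp [Fin.ext_iff]
        ring
      · intro h; rw [Fin.ext_iff] at h; simp at h
      · rintro l - ⟨h3, h4⟩
        rw [if_neg h3, if_neg (by intro h5; exact h4 (Fin.ext h5)), mul_zero]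
      · intro h; exact absurd (Finset.mem_univ _) h
      · intro h; exact absurd (Finset.mem_univ _) h
    · rw [coef_neg (fun h => hj h.1), zero_mul, add_zero, Finset.sum_eq_single j]
      · simp; ring
      · intro l _ h3
        rw [if_neg h3, if_neg (by intro h5; have := l.2; omega), mul_zero]
      · intro h; exact absurd (Finset.mem_univ _) h

end CosetT
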