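import Pool.Agent.Helper49.Coset.Gauss

/-!
`L s` and `s U` are `SL`-conjugate (twisted by `σ`) to the standard matrix.
-/

namespace CosetT

open Matrix

variable {F : Type*} [Field F] {n : ℕ}

/-- `X` and `Y` are `σ`-conjugate under `SL`. -/
def SConj (σ : F ≃+* F) (X Y : Matrix (Fin n) (Fin n) F) : Prop :=
  ∃ a : Matrix (Fin n) (Fin n) F, a.det = 1 ∧ X * a.map σ = a * Y

/-- eigenvalue pattern: one block of ones of size `k`, all other entries separated. -/
structure Pat (n k : ℕ) (σ : F ≃+* F) (s : ℕ → F) : Prop where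
  ne_zero : ∀ i, i < n → s i ≠ 0
  one : ∀ i, i < k → s i = 1
  sep : ∀ i j, i < n → j < n → i ≠ j → (k ≤ i ∨ k ≤ j) → ∀ z, z ≠ 0 → s j * σ z ≠ s i * z

theorem Pat.ne {n k : ℕ} {σ : F ≃+* F} {s : ℕ → F} (h : Pat n k σ s) {i j : ℕ} (hi : i < n)
    (hj : j < n) (hij : i ≠ j) (hk : k ≤ i ∨ k ≤ j) : s i ≠ s j := by
  intro heq
  apply h.sep i j hi hj hij hk 1 one_ne_zero
  rw [heq, map_one]

theorem Pat.pattern {n k : ℕ} {σ : F ≃+* F} {s : ℕ → F} (h : Pat n k σ s) (hkn : k ≤ n) :
    Pattern n σ s where
  ne_zero := h.ne_zero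
  contig := by
    intro i j l hij hjl hl hs
    by_cases hlk : l < k
    · rw [h.one j (by omega), h.one i (by omega)]
    · exact absurd hs (h.ne (by omega) hl (by omega) (by omega))
  sep := by
    intro i j hi hj hs z hz
    have hij : i ≠ j := fun h0 => hs (by rw [h0])
    by_cases hk : k ≤ i ∨ k ≤ j
    · exact h.sep i j hi hj hij hk z hz
    · exfalso; apply hs
      rw [h.one i (by omega), h.one j (by omega)]

theorem stdM_apply {s : ℕ → F} {e : F} (i j : Fin n) :
    stdM n s e i j = if i = j then s j else if (i : ℕ) = j + 1 then coef n s e j else 0 := rfl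

theorem det_stdM {s : ℕ → F} {e : F} : (stdM n s e).det = ∏ i : Fin n, s i := by
  rw [Matrix.det_of_isLowerTriangular]
  · apply Finset.prod_congr rfl
    intro i _
    rw [stdM_apply, if_pos rfl]
  · intro i j hij
    have hij' : i < j := hij
    rw [stdM_apply, if_neg (ne_of_lt hij'), if_neg]
    intro h
    have : (i : ℕ) < j := hij'
    omega

/-- adjust the determinant -/
theorem sconj_of_glconj {σ : F ≃+* F} {s : ℕ → F} {e : F} {k : ℕ} (h : Pat n k σ s)
    (hk : k + 1 ≤ n) {X g : Matrix (Fin n) (Fin n) F} (hX : X.det = ∏ i : Fin n, s i)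
    (hg : g.det ≠ 0) (hgX : X * g.map σ = g * stdM n s e) : SConj σ X (stdM n s e) := by
  have hs0 : (∏ i : Fin n, s i) ≠ 0 :=
    Finset.prod_ne_zero_iff.2 (fun i _ => h.ne_zero i i.2)
  have hfix : σ g.det = g.det := by
    have h1 := congrArg Matrix.det hgX
    rw [Matrix.det_mul, Matrix.det_mul, hX, det_stdM] at h1
    have h2 : (g.map σ).det = σ g.det := by
      have : (g.map σ) = σ.mapMatrix g := rfl
      rw [this, ← RingEquiv.map_det]
    rw [h2, mul_comm] at h1
    exact mul_right_cancel₀ hs0 h1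
  set c := (g.det)⁻¹ with hc
  have hcσ : σ c = c := by rw [hc, map_inv₀, hfix]
  have hlast : n - 1 < n := by omega
  set d : Fin n → F := fun i => if i = ⟨n - 1, hlast⟩ then c else 1 with hd
  have hdσ : (Matrix.diagonal d).map σ = Matrix.diagonal d := by
    rw [Matrix.diagonal_map (map_zero σ)]
    congr 1
    ext i
    by_cases hi : i = ⟨n - 1, hlast⟩
    · simp [hd, hi, hcσ]
    · simp [hd, hi]
  refine ⟨g * Matrix.diagonal d, ?_, ?_⟩
  · rw [Matrix.det_mul, Matrix.det_diagonal]
    have : ∏ i, d i = c := by simp [hd, Finset.prod_ite_eq']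
    rw [this, hc, mul_inv_cancel₀ hg]
  · have h1 : (g * Matrix.diagonal d).map σ = g.map σ * (Matrix.diagonal d).map σ := by
      have : (g * Matrix.diagonal d).map σ = σ.toRingHom.mapMatrix (g * Matrix.diagonal d) := rfl
      rw [this, map_mul]; rfl
    rw [h1, hdσ, ← mul_assoc, hgX, mul_assoc, mul_assoc]
    congr 1
    ext i j
    rw [Matrix.mul_diagonal, Matrix.diagonal_mul, stdM_apply]
    by_cases hij : i = j
    · rw [if_pos hij, hij, mul_comm]
    · rw [if_neg hij]
      by_cases hij1 : (i : ℕ) = j + 1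
      · rw [if_pos hij1]
        by_cases hi : i = ⟨n - 1, hlast⟩
        · -- the coefficient vanishes
          have hi' : (i : ℕ) = n - 1 := congrArg Fin.val hi
          have : coef n s e j = 0 := by
            apply coef_neg
            rintro ⟨h2, h3⟩
            exact h.ne (by omega) (by omega) (by omega) (by omega) h3
          rw [this]; ring
        · have hj : j ≠ ⟨n - 1, hlast⟩ := by
            intro h0
            have h1 : (j : ℕ) = n - 1 := congrArg Fin.val h0
            have := i.2
            omega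
          simp [hd, hi, hj]
      · rw [if_neg hij1]; ring

/-- lower version -/
theorem sconj_lower [Finite F] {σ : F ≃+* F} {s : ℕ → F} {e : F} {k : ℕ} (h : Pat n k σ s)
    (hk : k + 1 ≤ n) (he : e ∉ D σ) {L : Matrix (Fin n) (Fin n) F} (hL : LowerUni L)
    (hreg : ∀ i (hi : i + 1 < k), L ⟨i + 1, by omega⟩ ⟨i, by omega⟩ ∉ D σ) :
    SConj σ (L * Matrix.diagonal (fun i : Fin n => s i)) (stdM n s e) := by
  obtain ⟨g, hg, hgX⟩ := lower_conj he (h.pattern (by omega)) hL (by
    intro i hi hs
    by_cases hik : i + 1 < k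
    · exact hreg i hik
    · exact absurd hs (h.ne hi (by omega) (by omega) (by omega)))
  refine sconj_of_glconj h hk ?_ hg hgX
  rw [Matrix.det_mul, Matrix.det_diagonal, Matrix.det_of_isLowerTriangular]
  · simp [hL.1]
  · intro i j hij; exact hL.2 i j hij

/-- the permutation used for the upper version -/
def piFun (n k : ℕ) (hk : k ≤ n) (i : Fin n) : Fin n :=
  if h : (i : ℕ) < k then ⟨i + (n - k), by omega⟩ else ⟨n - 1 - i, by omega⟩

theorem piFun_lt {n k : ℕ} {hk : k ≤ n} {i : Fin n} (h : (i : ℕ) < k) :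
    (piFun n k hk i : ℕ) = i + (n - k) := by
  unfold piFun; rw [dif_pos h]

theorem piFun_ge {n k : ℕ} {hk : k ≤ n} {i : Fin n} (h : k ≤ (i : ℕ)) :
    (piFun n k hk i : ℕ) = n - 1 - i := by
  unfold piFun; rw [dif_neg (by omega)]

theorem piFun_inj {n k : ℕ} (hk : k ≤ n) : Function.Injective (piFun n k hk) := by
  intro i j hij
  have h := congrArg Fin.val hij
  by_cases hi : (i : ℕ) < k <;> by_cases hj : (j : ℕ) < k
  · rw [piFun_lt hi, piFun_lt hj] at h; exact Fin.ext (by omega)
  · rw [piFun_lt hi, piFun_ge (by omega)] at h; omega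
  · rw [piFun_ge (by omega), piFun_lt hj] at h; omega
  · rw [piFun_ge (by omega), piFun_ge (by omega)] at h
    have := i.2; have := j.2
    exact Fin.ext (by omega)

noncomputable def piPerm (n k : ℕ) (hk : k ≤ n) : Equiv.Perm (Fin n) :=
  Equiv.ofBijective (piFun n k hk) ((Finite.injective_iff_bijective).1 (piFun_inj hk))

theorem piPerm_apply {n k : ℕ} (hk : k ≤ n) (i : Fin n) : piPerm n k hk i = piFun n k hk i := rfl

/-- the reversed pattern -/
theorem pattern_rev {k : ℕ} {σ : F ≃+* F} {s : ℕ → F} (h : Pat n k σ s) (hk : k ≤ n) :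
    Pattern n σ (fun i => s (n - 1 - i)) where
  ne_zero := fun i hi => h.ne_zero _ (by omega)
  contig := by
    intro i j l hij hjl hl hs
    exact (h.pattern hk).contig (n - 1 - l) (n - 1 - j) (n - 1 - i) (by omega) (by omega) (by omega)
      hs.symm |>.trans hs.symm
  sep := by
    intro i j hi hj hs
    exact (h.pattern hk).sep _ _ (by omega) (by omega) hs

theorem std_rev {k : ℕ} {σ : F ≃+* F} {s : ℕ → F} {e : F} (h : Pat n k σ s) (hk : k ≤ n) :
    (stdM n (fun i => s (n - 1 - i)) e).submatrix (piPerm n k hk) (piPerm n k hk) =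
      stdM n s e := by
  have hval : ∀ j : Fin n, s (n - 1 - (piFun n k hk j : ℕ)) = s j := by
    intro j
    by_cases hj : (j : ℕ) < k
    · rw [piFun_lt hj, h.one _ (by omega), h.one _ hj]
    · rw [piFun_ge (by omega)]
      congr 1; have := j.2; omega
  ext i j
  rw [Matrix.submatrix_apply, piPerm_apply, piPerm_apply, stdM_apply, stdM_apply]
  by_cases hij : i = j
  · subst hij
    rw [if_pos rfl, if_pos rfl, hval]
  · rw [if_neg hij, if_neg (fun h0 => hij (piFun_inj hk h0))]
    have hi2 := i.2
    have hj2 := j.2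
    by_cases hi : (i : ℕ) < k <;> by_cases hj : (j : ℕ) < k
    · rw [piFun_lt hi, piFun_lt hj]
      by_cases h1 : (i : ℕ) = j + 1
      · rw [if_pos h1, if_pos (by omega)]
        have c1 : coef n (fun i => s (n - 1 - i)) e (↑j + (n - k)) = s j * e := by
          rw [coef_pos]
          · have := hval j
            rw [piFun_lt hj] at this
            rw [this]
          · refine ⟨by omega, ?_⟩
            rw [h.one _ (by omega), h.one _ (by omega)]
        have c2 : coef n s e j = s j * e := by
          rw [coef_pos]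
          refine ⟨by omega, ?_⟩
          rw [h.one _ (by omega), h.one _ (by omega)]
        rw [c1, c2]
      · rw [if_neg h1, if_neg (by omega)]
    · rw [piFun_lt hi, piFun_ge (by omega), if_neg (by omega : ¬ (i : ℕ) = j + 1)]
      by_cases h1 : (i : ℕ) + (n - k) = n - 1 - j + 1
      · rw [if_pos h1, coef_neg]
        rintro ⟨h2, h3⟩
        exact h.ne (by omega) (by omega) (by omega) (by omega) h3
      · rw [if_neg h1]
    · rw [piFun_ge (by omega), piFun_lt hj, if_neg (by omega)]
      by_cases h1 : (i : ℕ) = j + 1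
      · rw [if_pos h1, coef_neg]
        rintro ⟨h2, h3⟩
        exact h.ne (by omega) (by omega) (by omega) (by omega) h3
      · rw [if_neg h1]
    · rw [piFun_ge (by omega), piFun_ge (by omega)]
      by_cases h1 : (i : ℕ) = j + 1
      · rw [if_pos h1, if_neg (by omega), coef_neg]
        rintro ⟨h2, h3⟩
        exact h.ne (by omega) (by omega) (by omega) (by omega) h3
      · rw [if_neg h1]
        by_cases h4 : n - 1 - (i : ℕ) = n - 1 - j + 1
        · rw [if_pos h4, coef_neg]
          rintro ⟨h2, h3⟩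
          exact h.ne (by omega) (by omega) (by omega) (by omega) h3
        · rw [if_neg h4]

/-- upper version -/
theorem sconj_upper [Finite F] {σ : F ≃+* F} {s : ℕ → F} {e : F} {k : ℕ} (h : Pat n k σ s)
    (hk : k + 1 ≤ n) (he : e ∉ D σ) {U : Matrix (Fin n) (Fin n) F} (hU : UpperUni U)
    (hreg : ∀ i (hi : i + 1 < k), U ⟨i, by omega⟩ ⟨i + 1, by omega⟩ ∉ D σ) :
    SConj σ (Matrix.diagonal (fun i : Fin n => s i) * U) (stdM n s e) := by
  have hkn : k ≤ n := by omega
  set s' : ℕ → F := fun i => s (n - 1 - i) with hs'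
  have hrev : ∀ i : Fin n, s' i = s (Fin.rev i) := by
    intro i
    simp only [hs', Fin.val_rev]
    congr 1; omega
  -- the reversed matrix
  set L : Matrix (Fin n) (Fin n) F :=
    Matrix.of fun i j => s (Fin.rev i) * U (Fin.rev i) (Fin.rev j) / s (Fin.rev j) with hL
  have hsn : ∀ i : Fin n, s i ≠ 0 := fun i => h.ne_zero i i.2
  have hLU : LowerUni L := by
    constructor
    · intro i
      rw [hL, Matrix.of_apply, hU.1, mul_one, div_self (hsn _)]
    · intro i j hij
      rw [hL, Matrix.of_apply, hU.2 _ _ (Fin.rev_lt_rev.2 hij)]; simp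
  obtain ⟨g, hg, hgX⟩ := lower_conj he (pattern_rev h hkn) hLU (by
    intro i hi hs
    by_cases hik : n - 1 - i < k
    · have h1 := hreg (n - 1 - (i + 1)) (by omega)
      have e1 : L ⟨i + 1, hi⟩ ⟨i, by omega⟩ = U ⟨n - 1 - (i + 1), by omega⟩
          ⟨n - 1 - (i + 1) + 1, by omega⟩ := by
        rw [hL, Matrix.of_apply]
        have r1 : Fin.rev (⟨i + 1, hi⟩ : Fin n) = ⟨n - 1 - (i + 1), by omega⟩ := by
          ext; simp [Fin.val_rev]; omega
        have r2 : Fin.rev (⟨i, by omega⟩ : Fin n) = ⟨n - 1 - (i + 1) + 1, by omega⟩ := by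
          ext; simp [Fin.val_rev]; omega
        rw [r1, r2]
        simp only
        rw [h.one _ (by omega), h.one _ (by omega)]; simp
      rw [e1]; exact h1
    · exfalso
      exact h.ne (i := n - 1 - (i + 1)) (j := n - 1 - i) (by omega) (by omega) (by omega)
        (by omega) hs)
  set X := Matrix.diagonal (fun i : Fin n => s i) * U with hX
  have hXL : X = (L * Matrix.diagonal (fun i : Fin n => s' i)).submatrix Fin.revPerm Fin.revPerm := by
    ext i j
    rw [hX, Matrix.diagonal_mul, Matrix.submatrix_apply, Matrix.mul_diagonal, hrev, hL,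
      Matrix.of_apply]
    simp only [Fin.revPerm_apply, Fin.rev_rev]
    rw [div_mul_cancel₀ _ (hsn j)]
  -- the conjugating matrix
  set g' : Matrix (Fin n) (Fin n) F := g.submatrix Fin.revPerm (piPerm n k hkn) with hg'
  have hg'det : g'.det ≠ 0 := by
    intro h0
    have h1 : g' * (g⁻¹).submatrix (piPerm n k hkn) Fin.revPerm = 1 := by
      rw [hg', Matrix.submatrix_mul_equiv, Matrix.mul_nonsing_inv _ (isUnit_iff_ne_zero.2 hg)]
      exact Matrix.submatrix_one_equiv _
    have h2 := congrArg Matrix.det h1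
    rw [Matrix.det_mul, h0, zero_mul, Matrix.det_one] at h2
    exact zero_ne_one h2
  have hfin : X * g'.map σ = g' * stdM n s e := by
    have e1 : g'.map σ = (g.map σ).submatrix Fin.revPerm (piPerm n k hkn) := rfl
    rw [e1, hXL, Matrix.submatrix_mul_equiv, hgX, ← std_rev h hkn (e := e), hg',
      Matrix.submatrix_mul_equiv]
  refine sconj_of_glconj h hk ?_ hg'det hfin
  rw [hX, Matrix.det_mul, Matrix.det_diagonal, Matrix.det_of_isUpperTriangular]
  · simp [hU.1]
  · intro i j hij; exact hU.2 i j hij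

end CosetT
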