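import Pool.Agent.Helper49.Coset.Regular

/-!
Choice of the first basis vector and the first coordinate functional.
-/

namespace CosetT

open Matrix

variable {F : Type*} [Field F]

section E

variable {N : ℕ}

theorem act_coord_add {τ : F ≃+* F} {B : Matrix (Fin N) (Fin N) F} (v w : Fin N → F) (i : Fin N) :
    act τ B (v + w) i = act τ B v i + act τ B w i := by rw [act_add]; rfl

theorem act_coord_smul {τ : F ≃+* F} {B : Matrix (Fin N) (Fin N) F} (a : F) (v : Fin N → F)
    (i : Fin N) : act τ B (a • v) i = τ a * act τ B v i := by rw [act_smul]; rfl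

/-- `act τ B` is onto when `det B ≠ 0`. -/
theorem act_surj {τ : F ≃+* F} {B : Matrix (Fin N) (Fin N) F} (hB : B.det ≠ 0) (w : Fin N → F) :
    ∃ v, act τ B v = w := by
  refine ⟨fun i => τ.symm ((B⁻¹ *ᵥ w) i), ?_⟩
  unfold act
  simp only [RingEquiv.apply_symm_apply]
  rw [Matrix.mulVec_mulVec, Matrix.mul_nonsing_inv _ (isUnit_iff_ne_zero.2 hB), Matrix.one_mulVec]

/-- step A1 -/
theorem exists_indep {τ : F ≃+* F} (hτ : ∃ z, τ z ≠ z) {B : Matrix (Fin N) (Fin N) F}
    (hB : B.det ≠ 0) {c : Fin N → F} {p i j : Fin N} (hp : c p ≠ 0) (hi : i ≠ p) (hj : j ≠ p)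
    (hij : i ≠ j) :
    ∃ v : Fin N → F,
      (c p * v i - c i * v p) * (c p * act τ B v j - c j * act τ B v p) -
      (c p * v j - c j * v p) * (c p * act τ B v i - c i * act τ B v p) ≠ 0 := by
  by_contra hcon
  push Not at hcon
  obtain ⟨z, hz⟩ := hτ
  -- notation
  set P : (Fin N → F) → F := fun v => c p * v i - c i * v p with hP
  set P' : (Fin N → F) → F := fun v => c p * v j - c j * v p with hP'
  set X : (Fin N → F) → F := fun v => c p * act τ B v i - c i * act τ B v p with hX
  set Y : (Fin N → F) → F := fun v => c p * act τ B v j - c j * act τ B v p with hY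
  have hcon' : ∀ v, P v * Y v = P' v * X v := fun v => sub_eq_zero.1 (hcon v)
  have Padd : ∀ v w, P (v + w) = P v + P w := by
    intro v w; simp only [hP, Pi.add_apply]; ring
  have P'add : ∀ v w, P' (v + w) = P' v + P' w := by
    intro v w; simp only [hP', Pi.add_apply]; ring
  have Psm : ∀ (a : F) v, P (a • v) = a * P v := by
    intro a v; simp only [hP, Pi.smul_apply, smul_eq_mul]; ring
  have P'sm : ∀ (a : F) v, P' (a • v) = a * P' v := by
    intro a v; simp only [hP', Pi.smul_apply, smul_eq_mul]; ring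
  have Xadd : ∀ v w, X (v + w) = X v + X w := by
    intro v w; simp only [hX, act_coord_add]; ring
  have Yadd : ∀ v w, Y (v + w) = Y v + Y w := by
    intro v w; simp only [hY, act_coord_add]; ring
  have Xsm : ∀ (a : F) v, X (a • v) = τ a * X v := by
    intro a v; simp only [hX, act_coord_smul]; ring
  have Ysm : ∀ (a : F) v, Y (a • v) = τ a * Y v := by
    intro a v; simp only [hY, act_coord_smul]; ring
  set ei : Fin N → F := Pi.single i 1 with hei
  set ej : Fin N → F := Pi.single j 1 with hej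
  have hPi : P ei = c p := by simp [hP, hei, Pi.single_apply, hi.symm]
  have hP'i : P' ei = 0 := by simp [hP', hei, Pi.single_apply, hi.symm, hij.symm]
  have hPj : P ej = 0 := by simp [hP, hej, Pi.single_apply, hj.symm, hij]
  have hP'j : P' ej = c p := by simp [hP', hej, Pi.single_apply, hj.symm]
  have hXj : X ej = 0 := by
    have := hcon' ej
    rw [hPj, hP'j, zero_mul] at this
    rcases mul_eq_zero.1 this.symm with h | h
    · exact absurd h hp
    · exact h
  -- vectors with P' = 0, P ≠ 0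
  have key : ∀ v, P' v = 0 → P v ≠ 0 → X v = 0 := by
    intro v h1 h2
    have hYv : Y v = 0 := by
      have := hcon' v
      rw [h1, zero_mul] at this
      rcases mul_eq_zero.1 this with h | h
      · exact absurd h h2
      · exact h
    have h3 : ∀ l : F, l * P v * Y ej = c p * (τ l * X v) := by
      intro l
      have := hcon' (l • v + ej)
      rw [Padd, P'add, Xadd, Yadd, Psm, P'sm, Xsm, Ysm, h1, hYv, hPj, hP'j, hXj] at this
      linear_combination this
    have h4 := h3 1
    rw [map_one, one_mul, one_mul] at h4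
    have h5 := h3 z
    have h6 : c p * X v * (τ z - z) = 0 := by linear_combination z * h4 - h5
    rcases mul_eq_zero.1 h6 with h | h
    · rcases mul_eq_zero.1 h with h | h
      · exact absurd h hp
      · exact h
    · exact absurd (sub_eq_zero.1 h) hz
  have hXi : X ei = 0 := key ei hP'i (by rw [hPi]; exact hp)
  have hXk : ∀ k, P k = 0 → P' k = 0 → X k = 0 := by
    intro k h1 h2
    have := key (ei + k) (by rw [P'add, hP'i, h2, add_zero]) (by rw [Padd, hPi, h1, add_zero]; exact hp)
    rw [Xadd, hXi, zero_add] at this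
    exact this
  have hXall : ∀ v, X v = 0 := by
    intro v
    have h1 : v = (P v / c p) • ei + ((P' v / c p) • ej +
        (v - (P v / c p) • ei - (P' v / c p) • ej)) := by
      ext l; simp only [Pi.add_apply, Pi.sub_apply, Pi.smul_apply]; ring
    have hsub : ∀ a b : Fin N → F, P (a - b) = P a - P b := by
      intro a b; simp only [hP, Pi.sub_apply]; ring
    have hsub' : ∀ a b : Fin N → F, P' (a - b) = P' a - P' b := by
      intro a b; simp only [hP', Pi.sub_apply]; ring
    rw [h1, Xadd, Xadd, Xsm, Xsm, hXi, hXj, hXk]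
    · simp
    · rw [hsub, hsub, Psm, Psm, hPi, hPj]
      field_simp
      ring
    · rw [hsub', hsub', P'sm, P'sm, hP'i, hP'j]
      field_simp
      ring
  obtain ⟨v, hv⟩ := act_surj (τ := τ) hB ei
  have := hXall v
  rw [hX] at this
  simp only [hv] at this
  have h2 : c p * ei i - c i * ei p = c p := hPi
  rw [h2] at this
  exact hp this

/-- step A2 -/
theorem exists_vec {σ τ : F ≃+* F} [Finite F] (hτ : ∃ z, τ z ≠ z)
    {w : F} (hw : σ w = w) (hwτ : τ w = w) (hw0 : w ≠ 0) (hw1 : w ≠ 1)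
    {B : Matrix (Fin N) (Fin N) F}
    (hB : B.det ≠ 0) {c r : Fin N → F} {p i j : Fin N} (hp : c p ≠ 0) (hi : i ≠ p) (hj : j ≠ p)
    (hij : i ≠ j) (hr : r ≠ 0) {γ : F} (hγ : γ ≠ 0) :
    ∃ v : Fin N → F,
      (c p * v i - c i * v p) * (c p * act τ B v j - c j * act τ B v p) -
      (c p * v j - c j * v p) * (c p * act τ B v i - c i * act τ B v p) ≠ 0 ∧
      γ * (∑ l, r l * τ (v l)) ∉ D σ := by
  obtain ⟨v0, hv0⟩ := exists_indep hτ hB hp hi hj hij
  by_cases h0 : γ * (∑ l, r l * τ (v0 l)) ∈ D σ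
  swap
  · exact ⟨v0, hv0, h0⟩
  obtain ⟨e, he⟩ := exists_not_mem_D σ
  obtain ⟨l0, hl0⟩ := Function.ne_iff.1 hr
  set u : Fin N → F := Pi.single l0 (τ.symm (e / (γ * r l0))) with hu
  have hu1 : γ * (∑ l, r l * τ (u l)) = e := by
    rw [Finset.sum_eq_single l0]
    · rw [hu, Pi.single_eq_same, RingEquiv.apply_symm_apply]
      have : r l0 ≠ 0 := hl0
      field_simp
    · intro l _ hl
      rw [hu, Pi.single_eq_of_ne hl, map_zero, mul_zero]
    · intro h; exact absurd (Finset.mem_univ _) h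
  have hu2 : ∀ ε : F, σ ε = ε → τ ε = ε →
      γ * (∑ l, r l * τ ((u + ε • v0) l)) ∉ D σ := by
    intro ε hε hετ hmem
    have h1 : γ * (∑ l, r l * τ ((u + ε • v0) l)) =
        e + ε * (γ * (∑ l, r l * τ (v0 l))) := by
      rw [← hu1]
      simp only [Pi.add_apply, Pi.smul_apply, smul_eq_mul, map_add, map_mul, hετ, mul_add,
        Finset.sum_add_distrib, Finset.mul_sum]
      congr 1
      apply Finset.sum_congr rfl
      intro x _; ring
    rw [h1] at hmem
    exact he ((AddSubgroup.add_mem_cancel_right _ (smul_mem_D hε h0)).1 hmem)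
  set Q : (Fin N → F) → F := fun v =>
      (c p * v i - c i * v p) * (c p * act τ B v j - c j * act τ B v p) -
      (c p * v j - c j * v p) * (c p * act τ B v i - c i * act τ B v p) with hQ
  -- polynomial expansion
  obtain ⟨b, hb⟩ : ∃ b : F, ∀ ε : F, τ ε = ε → Q (u + ε • v0) = Q u + ε * b + ε * ε * Q v0 := by
    refine ⟨(c p * u i - c i * u p) * (c p * act τ B v0 j - c j * act τ B v0 p)
      + (c p * v0 i - c i * v0 p) * (c p * act τ B u j - c j * act τ B u p)
      - (c p * u j - c j * u p) * (c p * act τ B v0 i - c i * act τ B v0 p)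
      - (c p * v0 j - c j * v0 p) * (c p * act τ B u i - c i * act τ B u p), ?_⟩
    intro ε hε
    simp only [hQ, act_coord_add, act_coord_smul, Pi.add_apply, Pi.smul_apply, smul_eq_mul, hε]
    ring
  by_contra hcon
  push Not at hcon
  have q0 : Q (u + (0 : F) • v0) = 0 := by
    by_contra h
    exact hu2 0 (map_zero _) (map_zero _) (hcon _ h)
  have q1 : Q (u + (1 : F) • v0) = 0 := by
    by_contra h
    exact hu2 1 (map_one _) (map_one _) (hcon _ h)
  have q2 : Q (u + w • v0) = 0 := by
    by_contra h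
    exact hu2 w hw hwτ (hcon _ h)
  rw [hb 0 (map_zero _)] at q0
  rw [hb 1 (map_one _)] at q1
  rw [hb w hwτ] at q2
  have h3 : w * (w - 1) * Q v0 = 0 := by linear_combination q2 - w * q1 + (w - 1) * q0
  rcases mul_eq_zero.1 h3 with h | h
  · rcases mul_eq_zero.1 h with h | h
    · exact hw0 h
    · exact hw1 (sub_eq_zero.1 h)
  · exact hv0 h

/-- solvability of three linear conditions -/
theorem exists_functional {v w c : Fin N → F} {p i j : Fin N} (hp : c p ≠ 0)
    (hi : i ≠ p) (hj : j ≠ p) (hij : i ≠ j)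
    (hQ : (c p * v i - c i * v p) * (c p * w j - c j * w p) -
      (c p * v j - c j * v p) * (c p * w i - c i * w p) ≠ 0) (a b d : F) :
    ∃ φ : Fin N → F, (∑ l, φ l * v l = a) ∧ (∑ l, φ l * w l = b) ∧ (∑ l, φ l * c l = d) := by
  classical
  set Q := (c p * v i - c i * v p) * (c p * w j - c j * w p) -
      (c p * v j - c j * v p) * (c p * w i - c i * w p) with hQd
  -- φ = (d / c p) e_p + α (c p e_i - c i e_p) + β (c p e_j - c j e_p)
  set a' := a - d / c p * v p with ha'
  set b' := b - d / c p * w p with hb'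
  set α := (a' * (c p * w j - c j * w p) - b' * (c p * v j - c j * v p)) / Q with hα
  set β := (b' * (c p * v i - c i * v p) - a' * (c p * w i - c i * w p)) / Q with hβ
  have hsum : ∀ x : Fin N → F, ∑ l, ((d / c p - α * c i - β * c j) * (if l = p then 1 else 0)
      + α * c p * (if l = i then 1 else 0) + β * c p * (if l = j then 1 else 0)) * x l =
      (d / c p - α * c i - β * c j) * x p + α * c p * x i + β * c p * x j := by
    intro x
    simp only [add_mul, Finset.sum_add_distrib, mul_assoc, ite_mul, one_mul, zero_mul, mul_ite,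
      mul_zero, Finset.sum_ite_eq', Finset.mem_univ, if_true]
  refine ⟨fun l => ((d / c p - α * c i - β * c j) * (if l = p then 1 else 0)
      + α * c p * (if l = i then 1 else 0) + β * c p * (if l = j then 1 else 0)), ?_, ?_, ?_⟩
  · rw [hsum]
    have h1 : α * (c p * v i - c i * v p) + β * (c p * v j - c j * v p) = a' := by
      rw [hα, hβ, div_mul_eq_mul_div, div_mul_eq_mul_div, ← add_div, div_eq_iff hQ, hQd]; ring
    linear_combination h1 + ha'
  · rw [hsum]
    have h1 : α * (c p * w i - c i * w p) + β * (c p * w j - c j * w p) = b' := by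
      rw [hα, hβ, div_mul_eq_mul_div, div_mul_eq_mul_div, ← add_div, div_eq_iff hQ, hQd]; ring
    linear_combination h1 + hb'
  · rw [hsum]
    field_simp
    ring

/-- the complete choice in dimension at least three -/
theorem choose_three {σ τ : F ≃+* F} [Finite F] (hτ : ∃ z, τ z ≠ z)
    (hστ : ∀ z, σ z = z → τ z = z)
    {w : F} (hw : σ w = w) (hw0 : w ≠ 0) (hw1 : w ≠ 1) (hN : 3 ≤ N)
    {B : Matrix (Fin N) (Fin N) F} (hB : B.det ≠ 0) {c r : Fin N → F} (hc : c ≠ 0) (hr : r ≠ 0)
    {γ γ' h : F} (hγ : γ ≠ 0) (hγ' : γ' ≠ 0) (hh : h ≠ 0) :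
    ∃ v φ : Fin N → F, (∑ l, φ l * v l = 1) ∧ (∑ l, φ l * act τ B v l = h) ∧
      γ * (∑ l, φ l * c l) ∉ D σ ∧ γ' * (∑ l, r l * τ (v l)) ∉ D σ ∧
      act τ B v ≠ h • v ∧ (∃ j, ∑ l, φ l * B l j ≠ h * τ (φ j)) := by
  classical
  obtain ⟨p, hp⟩ := Function.ne_iff.1 hc
  have hp' : c p ≠ 0 := hp
  obtain ⟨i, j, hi, hj, hij⟩ : ∃ i j : Fin N, i ≠ p ∧ j ≠ p ∧ i ≠ j := by
    have h1 : 1 < (Finset.univ.erase p).card := by
      rw [Finset.card_erase_of_mem (Finset.mem_univ _), Finset.card_univ, Fintype.card_fin]; omega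
    obtain ⟨i, hi, j, hj, hij⟩ := Finset.one_lt_card.1 h1
    exact ⟨i, j, (Finset.mem_erase.1 hi).1, (Finset.mem_erase.1 hj).1, hij⟩
  obtain ⟨v, hQ, hv⟩ := exists_vec hτ hw (hστ w hw) hw0 hw1 hB hp' hi hj hij hr hγ'
  obtain ⟨φ0, h01, h02, h03⟩ := exists_functional hp' hi hj hij hQ 1 h 0
  obtain ⟨ψ, h11, h12, h13⟩ := exists_functional hp' hi hj hij hQ 0 0 1
  have hne : act τ B v ≠ h • v := by
    intro heq
    apply hQ
    rw [heq]
    simp only [Pi.smul_apply, smul_eq_mul]
    ring
  have hψ0 : ψ ≠ 0 := by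
    intro h0
    rw [h0] at h13
    simp at h13
  obtain ⟨l0, hl0⟩ := Function.ne_iff.1 hψ0
  have hl0' : ψ l0 ≠ 0 := hl0
  obtain ⟨e, he⟩ := exists_not_mem_D σ
  by_contra hcon
  -- every `z` with `γ z ∉ D` is bad
  have hbad : ∀ z : F, γ * z ∉ D σ →
      ∑ l, (φ0 l + z * ψ l) * B l l0 = h * τ (φ0 l0 + z * ψ l0) := by
    intro z hz
    by_contra hb
    apply hcon
    refine ⟨v, fun l => φ0 l + z * ψ l, ?_, ?_, ?_, hv, hne, ⟨l0, hb⟩⟩
    · simp only [add_mul, Finset.sum_add_distrib, h01, mul_assoc, ← Finset.mul_sum, h11]; ring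
    · simp only [add_mul, Finset.sum_add_distrib, h02, mul_assoc, ← Finset.mul_sum, h12]; ring
    · have : ∑ l, (φ0 l + z * ψ l) * c l = z := by
        simp only [add_mul, Finset.sum_add_distrib, h03, mul_assoc, ← Finset.mul_sum, h13]; ring
      rw [this]; exact hz
  set x := ∑ l, ψ l * B l l0 with hx
  set y := h * τ (ψ l0) with hy
  have hy0 : y ≠ 0 := mul_ne_zero hh (by simpa using hl0')
  have hdiff : ∀ d : F, d * x = τ d * y := by
    intro d
    obtain ⟨a, f, hf, hd⟩ := decomp σ he (γ * d)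
    -- choose ε
    obtain ⟨ε, hε, hε0, hεf⟩ : ∃ ε : F, σ ε = ε ∧ ε ≠ 0 ∧ ε + f ≠ 0 := by
      by_cases h1 : 1 + f = 0
      · refine ⟨w, hw, hw0, ?_⟩
        intro h2
        apply hw1
        linear_combination h2 - h1
      · exact ⟨1, map_one _, one_ne_zero, h1⟩
    have g1 := hbad (ε * e / γ) (by
      rw [mul_div_cancel₀ _ hγ]
      exact smul_not_mem_D hε hε0 he)
    have g2 := hbad (ε * e / γ + d) (by
      rw [mul_add, mul_div_cancel₀ _ hγ, hd]
      intro hmem
      have h3 : (ε + f) * e ∈ D σ := by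
        have : (ε + f) * e = (ε * e + (σ a - a + f * e)) - (σ a - a) := by ring
        rw [this]
        exact sub_mem hmem (mem_D.2 ⟨a, rfl⟩)
      exact smul_not_mem_D (by rw [map_add, hε, hf]) hεf he h3)
    have e1 : ∀ z : F, ∑ l, (φ0 l + z * ψ l) * B l l0 = (∑ l, φ0 l * B l l0) + z * x := by
      intro z
      simp only [add_mul, Finset.sum_add_distrib, mul_assoc, ← Finset.mul_sum, hx]
    rw [e1] at g1 g2
    rw [map_add, map_mul] at g1 g2
    rw [map_add] at g2
    linear_combination g2 - g1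
  have hxy := hdiff 1
  rw [map_one, one_mul, one_mul] at hxy
  obtain ⟨z, hz⟩ := hτ
  have := hdiff z
  rw [hxy] at this
  have h4 : (τ z - z) * y = 0 := by linear_combination -this
  rcases mul_eq_zero.1 h4 with h5 | h5
  · exact hz (sub_eq_zero.1 h5)
  · exact hy0 h5

/-- the choice in dimension two -/
theorem choose_two {τ : F ≃+* F} (hτ : ∃ z, τ z ≠ z)
    {B : Matrix (Fin 2) (Fin 2) F} (hB : B.det ≠ 0) (h : F) :
    ∃ v φ : Fin 2 → F, (∑ l, φ l * v l = 1) ∧ (∑ l, φ l * act τ B v l = h) := by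
  obtain ⟨v, hv⟩ : ∃ v : Fin 2 → F, v 0 * act τ B v 1 - v 1 * act τ B v 0 ≠ 0 := by
    by_contra hcon
    push Not at hcon
    obtain ⟨z, hz⟩ := hτ
    have h1 := hcon ![1, 0]
    have h2 := hcon ![0, 1]
    have h3 := hcon ![1, 1]
    have h4 := hcon ![1, z]
    simp only [act_apply, Fin.sum_univ_two, Matrix.cons_val_zero, Matrix.cons_val_one, map_zero,
      map_one, mul_one, mul_zero, zero_mul, one_mul, add_zero, zero_add, sub_zero, zero_sub] at h1 h2 h3 h4
    have h5 : B 1 1 = B 0 0 := by linear_combination h3 - h1 - h2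
    have h6 : B 0 0 * (τ z - z) = 0 := by
      linear_combination h4 - h1 - z * τ z * h2 - (τ z) * h5
    rcases mul_eq_zero.1 h6 with h7 | h7
    · apply hB
      rw [Matrix.det_fin_two, h1, h7]; ring
    · exact hz (sub_eq_zero.1 h7)
  set w := act τ B v with hw
  set a := v 0 * w 1 - v 1 * w 0 with ha
  refine ⟨v, ![(w 1 - h * v 1) / a, -(w 0 - h * v 0) / a], ?_, ?_⟩
  · simp only [Fin.sum_univ_two, Matrix.cons_val_zero, Matrix.cons_val_one]
    field_simp
    rw [ha]; ring
  · simp only [Fin.sum_univ_two, Matrix.cons_val_zero, Matrix.cons_val_one]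
    field_simp
    rw [ha]; ring

end E

end CosetT
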